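import Pool.Agent.H6.LieFinal

/-!
# The Lie algebra
-/

set_option autoImplicit false

namespace Pool.Agent.H6

open MvPolynomial

/-- `τ_n = t_0 ⋯ t_{n-1}`. -/
noncomputable def τ (n : ℕ) : PK := ∏ i ∈ Finset.range n, tK i

theorem τ_ne (n : ℕ) : τ n ≠ 0 := Finset.prod_ne_zero_iff.mpr fun i _ => tK_ne i

theorem τ_mem (n : ℕ) : τ n ∈ k0 := Subfield.prod_mem _ fun i _ => t_mem i

theorem τ_succ (n : ℕ) : τ (n + 1) = τ n * tK n := Finset.prod_range_succ _ _

theorem δ_τ {n m : ℕ} (h : n ≤ m) {w : PK} (hw : w ∈ FF n) :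
    (τ m)⁻¹ * δK m w = (τ n)⁻¹ * δK n w := by
  induction m, h using Nat.le_induction with
  | base => rfl
  | succ m hm ih =>
    rw [← ih, δK_succ_FF (FF_mono hm hw), τ_succ, mul_inv]
    have := tK_ne m
    field_simp

/-- The derivation `D`, as a function. -/
noncomputable def Dfun (w : PK) : PK := (τ (FF_all w).choose)⁻¹ * δK (FF_all w).choose w

theorem Dfun_eq {n : ℕ} {w : PK} (hw : w ∈ FF n) : Dfun w = (τ n)⁻¹ * δK n w := by
  have h := (FF_all w).choose_spec
  rw [Dfun, ← δ_τ (le_max_left (FF_all w).choose n) h, ← δ_τ (le_max_right _ n) hw]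

theorem Dfun_add (v w : PK) : Dfun (v + w) = Dfun v + Dfun w := by
  obtain ⟨n, hn⟩ := FF_all v
  obtain ⟨m, hm⟩ := FF_all w
  have h1 := FF_mono (le_max_left n m) hn
  have h2 := FF_mono (le_max_right n m) hm
  rw [Dfun_eq h1, Dfun_eq h2, Dfun_eq (add_mem h1 h2), map_add, mul_add]

theorem Dfun_mul (v w : PK) : Dfun (v * w) = v * Dfun w + w * Dfun v := by
  obtain ⟨n, hn⟩ := FF_all v
  obtain ⟨m, hm⟩ := FF_all w
  have h1 := FF_mono (le_max_left n m) hn
  have h2 := FF_mono (le_max_right n m) hm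
  rw [Dfun_eq h1, Dfun_eq h2, Dfun_eq (FF_mul h1 h2), δK_mul]
  ring

theorem Dfun_k {c : PK} (hc : c ∈ k0) : Dfun c = 0 := by
  rw [Dfun_eq (FF_k (n := 0) hc), δK_k hc, mul_zero]

theorem Dfun_neg (v : PK) : Dfun (-v) = - Dfun v := by
  have h := Dfun_mul (-1) v
  rw [Dfun_k (k0.neg_mem k0.one_mem), mul_zero, add_zero] at h
  rw [← neg_one_mul, h, neg_one_mul]

theorem Dfun_sub (v w : PK) : Dfun (v - w) = Dfun v - Dfun w := by
  rw [sub_eq_add_neg, Dfun_add, Dfun_neg, sub_eq_add_neg]

theorem Dfun_FF {n : ℕ} {w : PK} (hw : w ∈ FF n) : Dfun w ∈ FF n := by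
  rw [Dfun_eq hw]
  exact FF_mul (FF_k (k0.inv_mem (τ_mem n))) (FF_δ hw)

/-- The bracket. -/
noncomputable def brk (a b : PK) : PK := a * Dfun b - b * Dfun a

theorem brk_add_left (a b c : PK) : brk (a + b) c = brk a c + brk b c := by
  simp only [brk, Dfun_add]; ring

theorem brk_add_right (a b c : PK) : brk a (b + c) = brk a b + brk a c := by
  simp only [brk, Dfun_add]; ring

theorem brk_self (a : PK) : brk a a = 0 := by
  simp only [brk]; ring

theorem brk_jacobi (a b c : PK) : brk a (brk b c) = brk (brk a b) c + brk b (brk a c) := by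
  simp only [brk, Dfun_sub, Dfun_mul]; ring

theorem brk_smul (c : k0) (a b : PK) : brk a (c • b) = c • brk a b := by
  simp only [brk, Subfield.smul_def, smul_eq_mul, Dfun_mul, Dfun_k c.2]; ring

/-- The underlying space of the Lie algebra. -/
def LL : Type := PK

noncomputable instance : AddCommGroup LL := inferInstanceAs (AddCommGroup PK)

noncomputable instance : Module k0 LL := inferInstanceAs (Module k0 PK)

noncomputable instance : Bracket LL LL := ⟨fun a b => brk a b⟩

noncomputable instance : LieRing LL where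
  add_lie := brk_add_left
  lie_add := brk_add_right
  lie_self := brk_self
  leibniz_lie := brk_jacobi

noncomputable instance : LieAlgebra k0 LL where
  lie_smul := brk_smul

/-- A subspace closed under the bracket is everything or is contained in some `F_n`. -/
theorem subalgebra_cases (V : Submodule k0 PK)
    (hcl : ∀ a ∈ V, ∀ b ∈ V, a * Dfun b - b * Dfun a ∈ V) :
    V = ⊤ ∨ ∃ n, V ≤ FF n := by
  by_cases hb : ∃ n, V ≤ FF n
  · exact Or.inr hb
  left
  push Not at hb
  have hne : ∃ f ∈ V, f ≠ 0 := by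
    by_contra hcon
    push Not at hcon
    apply hb 0
    intro v hv
    rw [hcon v hv]; exact zero_mem _
  obtain ⟨f, hf, hf0⟩ := hne
  obtain ⟨m, hm⟩ := FF_all f
  rw [eq_top_iff]
  intro w _
  obtain ⟨N, hN⟩ := FF_all w
  -- an element of V outside F_{max (m+2) N}
  obtain ⟨v, hv, hv'⟩ := Set.not_subset.mp (hb (max (m + 2) N))
  have hex : ∃ n, v ∈ FF n := FF_all v
  classical
  have hspec := Nat.find_spec hex
  have hmin := fun j => Nat.find_min (H := hex) (m := j)
  have hgt : max (m + 2) N < Nat.find hex := by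
    by_contra hcon
    push Not at hcon
    exact hv' (FF_mono hcon hspec)
  obtain ⟨q, hq⟩ : ∃ q, Nat.find hex = q + 3 := ⟨Nat.find hex - 3, by omega⟩
  have hmq : m ≤ q := by omega
  have hNq : N ≤ q + 3 := by omega
  have hvn : v ∉ FF (q + 2) := hmin (q + 2) (by omega)
  rw [hq] at hspec
  -- apply the main lemma to V ∩ F_{q+3}
  have hmain := main_lemma (m := m) (q := q) hmq (V := V ⊓ FF (q + 3)) inf_le_right
    (by
      intro a ha b hb
      have h1 : a * Dfun b - b * Dfun a ∈ V ⊓ FF (q + 3) :=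
        ⟨hcl a ha.1 b hb.1, sub_mem (FF_mul ha.2 (Dfun_FF hb.2)) (FF_mul hb.2 (Dfun_FF ha.2))⟩
      have h2 : a * δK (q + 3) b - b * δK (q + 3) a =
          τ (q + 3) * (a * Dfun b - b * Dfun a) := by
        rw [Dfun_eq ha.2, Dfun_eq hb.2]
        have := τ_ne (q + 3)
        field_simp
      rw [h2]
      exact Red.mul_mem_V (τ_mem _) h1)
    (f := f) ⟨hf, FF_mono (by omega) hm⟩ hm hf0
    (fun h => hvn (h ⟨hv, hspec⟩))
  have h3 : w ∈ V ⊓ FF (q + 3) := by rw [hmain]; exact FF_mono hNq hN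
  exact h3.1

/-- The subalgebra `F_n`. -/
noncomputable def FFL (n : ℕ) : LieSubalgebra k0 LL where
  toSubmodule := FF n
  lie_mem' := by
    intro a b ha hb
    exact sub_mem (FF_mul ha (Dfun_FF hb)) (FF_mul hb (Dfun_FF ha))

theorem not_fg : ¬ ∃ s : Set LL, s.Finite ∧ LieSubalgebra.lieSpan k0 LL s = ⊤ := by
  rintro ⟨s, hs, hspan⟩
  have h1 : ∃ n, ∀ w ∈ s, (show PK from w) ∈ FF n := by
    clear hspan
    induction s, hs using Set.Finite.induction_on with
    | empty => exact ⟨0, by simp⟩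
    | @insert a s _ _ ih =>
      obtain ⟨n, hn⟩ := ih
      obtain ⟨m, hm⟩ := FF_all a
      refine ⟨max n m, ?_⟩
      intro w hw
      rcases Set.mem_insert_iff.mp hw with rfl | hw
      · exact FF_mono (le_max_right _ _) hm
      · exact FF_mono (le_max_left _ _) (hn w hw)
  obtain ⟨n, hn⟩ := h1
  have h2 : LieSubalgebra.lieSpan k0 LL s ≤ FFL n := LieSubalgebra.lieSpan_le.mpr hn
  rw [hspan] at h2
  exact x_not_FF n (h2 (LieSubalgebra.mem_top (show LL from xK n)))

theorem proper_fg (H : LieSubalgebra k0 LL) (hH : H ≠ ⊤) :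
    ∃ s : Set LL, s.Finite ∧ LieSubalgebra.lieSpan k0 LL s = H := by
  let V : Submodule k0 PK := H.toSubmodule
  have hcl : ∀ a ∈ V, ∀ b ∈ V, a * Dfun b - b * Dfun a ∈ V := by
    intro a ha b hb
    exact H.lie_mem ha hb
  rcases subalgebra_cases V hcl with h | ⟨n, hn⟩
  · exfalso
    apply hH
    rw [← LieSubalgebra.toSubmodule_inj]
    exact h
  · have hfin : FiniteDimensional k0 V := Submodule.finiteDimensional_of_le hn
    have hfg : (H.toSubmodule : Submodule k0 LL).FG :=
      (Submodule.fg_iff_finiteDimensional V).mpr hfin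
    obtain ⟨s, hs⟩ := hfg
    refine ⟨(s : Set LL), s.finite_toSet, ?_⟩
    apply le_antisymm
    · rw [LieSubalgebra.lieSpan_le]
      intro x hx
      have h1 : x ∈ H.toSubmodule := by rw [← hs]; exact Submodule.subset_span hx
      exact h1
    · intro x hx
      have h1 : x ∈ H.toSubmodule := hx
      rw [← hs] at h1
      have h2 : Submodule.span k0 (s : Set LL) ≤
          (LieSubalgebra.lieSpan k0 LL (s : Set LL)).toSubmodule :=
        Submodule.span_le.mpr LieSubalgebra.subset_lieSpan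
      exact h2 h1

end Pool.Agent.H6
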