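import Pool.Agent.H6.LieMain

/-!
# The main lemma: a subspace closed under the bracket which is large is everything
-/

set_option autoImplicit false

namespace Pool.Agent.H6

open MvPolynomial

theorem δA_x {n j : ℕ} (h : n ≤ j) : δA n (xA j) = 0 := by
  induction n with
  | zero => rfl
  | succ n ih => rw [δA_succ, ih (by omega), EA_x, if_neg (by omega)]; ring

/-- The nonvanishing condition. -/
theorem dc_ne {n : ℕ} {a : PA} (ha : EA n a = 0) (ha0 : a ≠ 0) :
    δA (n + 1) (ηA (n + 1) * a) ≠ 0 := by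
  intro h
  have hx : δA (n + 1) (ηA (n + 1)) = ηA n * xA n := by
    show δA (n + 1) (1 + xA n) = _
    rw [map_add, Derivation.map_one_eq_zero, zero_add, δA_succ, δA_x le_rfl, EA_x, if_pos rfl]
    ring
  have hh : δA (n + 1) a = tA n * δA n a := by rw [δA_succ, ha]; ring
  have hEh : EA n (δA (n + 1) a) = 0 := by
    rw [hh, EA_mul, EA_t, δA_comm le_rfl, ha, map_zero]; ring
  have hη : EA n (ηA (n + 1)) = xA n := by
    show EA n (1 + xA n) = _
    rw [map_add, Derivation.map_one_eq_zero, EA_x, if_pos rfl, zero_add]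
  rw [δA_mul, hx] at h
  have h1 := congrArg (EA n) h
  rw [map_zero, map_add, EA_mul, EA_mul, EA_mul, hEh, hη, ha, E_η le_rfl, EA_x, if_pos rfl] at h1
  have h2 : ηA (n + 1) = 1 + xA n := rfl
  rw [h2] at h
  have h3 : δA (n + 1) a = 0 := by linear_combination h - h1
  rw [h3] at h
  have h4 : a * (ηA n * xA n) = 0 := by linear_combination h
  exact (mul_ne_zero ha0 (mul_ne_zero (η_ne n) (xA_ne n))) h4

/-- Scaling an element so that its reduction is nonzero. -/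
theorem scale (n : ℕ) {f : PK} (hf : f ≠ 0) : ∃ (a : PA) (κ : PK), κ ∈ k0 ∧ κ ≠ 0 ∧
    algebraMap PA PK a = κ * f ∧ evn n a ≠ 0 := by
  obtain ⟨b, a, hb, hab⟩ := PK_frac f
  have hb' : algebraMap PA PK b ≠ 0 := by
    rw [Ne, map_eq_zero_iff _ PK_inj]; exact hb
  have ha : a ≠ 0 := by
    intro h0
    rw [h0, map_zero] at hab
    exact (mul_ne_zero (pow_ne_zero 3 hb') hf) hab.symm
  obtain ⟨l, a', haa, ha'⟩ := evn_ord n a ha
  have ht := tK_ne n
  refine ⟨a', (tK n ^ l)⁻¹ * algebraMap PA PK b ^ 3, ?_, ?_, ?_, ha'⟩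
  · exact k0.mul_mem (k0.inv_mem (k0.pow_mem (t_mem n) l)) (cube_mem _)
  · exact mul_ne_zero (inv_ne_zero (pow_ne_zero _ ht)) (pow_ne_zero _ hb')
  · rw [mul_assoc, ← hab, haa, map_mul, map_pow]
    show _ = (tK n ^ l)⁻¹ * (tK n ^ l * _)
    field_simp

theorem V'_le (n m : ℕ) {V : Submodule k0 PK} (hV : V ≤ FF m) : (RD n).V' V ≤ FF m := by
  apply Submodule.span_le.mpr
  rintro _ ⟨b, ⟨a, ha, rfl⟩, rfl⟩
  show algebraMap PA PK (evn n a) ∈ FF m
  intro j hj
  have h1 := hV ha j hj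
  rw [EK_alg, map_eq_zero_iff _ PK_inj] at h1
  rw [EK_alg, ← evn_EA, h1, map_zero, map_zero]

theorem alg_FF {m : ℕ} {a : PA} (h : algebraMap PA PK a ∈ FF m) (n : ℕ) :
    algebraMap PA PK (evn n a) ∈ FF m := by
  intro j hj
  have h1 := h j hj
  rw [EK_alg, map_eq_zero_iff _ PK_inj] at h1
  rw [EK_alg, ← evn_EA, h1, map_zero, map_zero]

/-- If the field `R` contains `F_n` then `V` is everything. -/
theorem full {n : ℕ} {V : Submodule k0 PK} (hV : V ≤ FF (n + 1)) (C : Ctx (RD n) V)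
    (R : Subalgebra k0 PK)
    (hR1 : ∀ r ∈ R, algebraMap PA PK ((RD n).ev C.f) * r ∈ (RD n).Vj V 0)
    (hR2 : ∃ u ≠ 0, (RD n).E u = u ∧ ∀ r ∈ R, r * u ∈ (RD n).Vj V 1)
    (hR3 : ∃ u ≠ 0, (RD n).E u = -u ∧ ∀ r ∈ R, r * u ∈ (RD n).Vj V (-1))
    (hR : ∀ w ∈ FF n, w ∈ R) : V = FF (n + 1) := by
  have hfn : algebraMap PA PK C.f ∈ FF n := by
    intro j hj
    rcases Nat.eq_or_lt_of_le hj with h | h
    · subst h
      rw [EK_alg]
      have : EA n C.f = 0 := C.Ef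
      rw [this, map_zero]
    · exact hV C.hf j h
  have hF0 : algebraMap PA PK ((RD n).ev C.f) ∈ FF n := alg_FF hfn n
  have hF : algebraMap PA PK ((RD n).ev C.f) ≠ 0 := C.fK0
  apply (RD n).eq_of_V'_eq hV
  apply le_antisymm (V'_le n (n + 1) hV)
  intro w hw
  have h1 := (RD n).pK_sum w
  rw [← h1]
  have e0 := E_pK n 0 w
  have e1 := E_pK n 1 w
  have e2 := E_pK n (-1) w
  push_cast at e0 e1 e2
  refine add_mem (add_mem ?_ ?_) ?_
  · apply Red.Vj_le 0
    have h2 : (RD n).pK 0 w ∈ FF n := by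
      intro j hj
      rcases Nat.eq_or_lt_of_le hj with h' | h'
      · subst h'; rw [e0, zero_mul]
      · exact pK_FF n 0 hw j h'
    have h3 := hR1 _ (hR _ (FF_mul (FF_inv hF0) h2))
    rwa [mul_inv_cancel_left₀ hF] at h3
  · apply Red.Vj_le 1
    obtain ⟨u, hu0, hu, hu'⟩ := hR2
    have huF : u ∈ FF (n + 1) := by
      apply V'_le n (n + 1) hV
      apply Red.Vj_le 1
      have := hu' 1 R.one_mem
      rwa [one_mul] at this
    have hu1 : EK n u = 1 * u := by rw [one_mul]; exact hu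
    have h3 := hu' _ (hR _ (FF_div (pK_FF n 1 hw) huF hu0 e1 hu1))
    rwa [inv_mul_cancel_right₀ hu0] at h3
  · apply Red.Vj_le (-1)
    obtain ⟨u, hu0, hu, hu'⟩ := hR3
    have huF : u ∈ FF (n + 1) := by
      apply V'_le n (n + 1) hV
      apply Red.Vj_le (-1)
      have := hu' 1 R.one_mem
      rwa [one_mul] at this
    have hu1 : EK n u = (-1) * u := by rw [neg_one_mul]; exact hu
    have h3 := hu' _ (hR _ (FF_div (pK_FF n (-1) hw) huF hu0 e2 hu1))
    rwa [inv_mul_cancel_right₀ hu0] at h3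

/-- A subalgebra closed under inverses containing the `x_i` contains `F_n`. -/
theorem FF_le_of_x (R : Subalgebra k0 PK) (hinv : ∀ r ∈ R, r⁻¹ ∈ R) (n : ℕ)
    (hx : ∀ i < n, xK i ∈ R) : ∀ w ∈ FF n, w ∈ R := by
  induction n with
  | zero =>
    intro w hw
    have : w ∈ k0 := fun i => hw i (Nat.zero_le i)
    exact R.algebraMap_mem ⟨w, this⟩
  | succ n ih =>
    intro w hw
    have ih' := ih (fun i hi => hx i (by omega))
    have hxn := hx n (Nat.lt_succ_self n)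
    have h1 := (RD n).pK_sum w
    rw [← h1]
    have hxe : EK n (xK n) = 1 * xK n := by rw [EK_x, if_pos rfl, one_mul]
    have hx' : EK n (xK n)⁻¹ = (-1) * (xK n)⁻¹ := by
      have h2 : EK n (xK n * (xK n)⁻¹) = 0 := by
        rw [mul_inv_cancel₀ (xK_ne n)]; exact Derivation.map_one_eq_zero _
      rw [EK_mul, hxe] at h2
      have h3 : xK n * (EK n (xK n)⁻¹ + (xK n)⁻¹) = 0 := by linear_combination h2
      have h4 := (mul_eq_zero.mp h3).resolve_left (xK_ne n)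
      linear_combination h4
    have e0 := E_pK n 0 w
    have e1 := E_pK n 1 w
    have e2 := E_pK n (-1) w
    push_cast at e0 e1 e2
    refine R.add_mem (R.add_mem ?_ ?_) ?_
    · apply ih'
      intro j hj
      rcases Nat.eq_or_lt_of_le hj with h' | h'
      · subst h'; rw [e0, zero_mul]
      · exact pK_FF n 0 hw j h'
    · have h3 := R.mul_mem (ih' _ (FF_div (pK_FF n 1 hw) (FF_x (Nat.lt_succ_self n)) (xK_ne n)
        e1 hxe)) hxn
      rwa [inv_mul_cancel_right₀ (xK_ne n)] at h3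
    · have h3 := R.mul_mem (ih' _ (FF_div (pK_FF n (-1) hw) (FF_inv (FF_x (Nat.lt_succ_self n)))
        (inv_ne_zero (xK_ne n)) e2 hx')) (hinv _ hxn)
      rwa [inv_mul_cancel_right₀ (inv_ne_zero (xK_ne n))] at h3

theorem δK_x (n : ℕ) : ∀ i < n, ∃ κ ∈ k0, κ ≠ 0 ∧
    δK n (xK i) = κ * algebraMap PA PK (ηA i) * xK i := by
  induction n with
  | zero => intro i hi; omega
  | succ n ih =>
    intro i hi
    rcases Nat.eq_or_lt_of_le (Nat.lt_succ_iff.mp hi) with h | h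
    · subst h
      refine ⟨1, k0.one_mem, one_ne_zero, ?_⟩
      have : δK i (xK i) = 0 := by rw [xK, δ_alg, δA_x le_rfl, map_zero]
      rw [δK_succ, this, EK_x, if_pos rfl]; ring
    · obtain ⟨κ, h1, h2, h3⟩ := ih i h
      refine ⟨tK n * κ, k0.mul_mem (t_mem n) h1, mul_ne_zero (tK_ne n) h2, ?_⟩
      rw [δK_succ_FF (FF_x h), h3]; ring

theorem η_succ (i : ℕ) : algebraMap PA PK (ηA (i + 1)) = 1 + xK i := by
  show algebraMap PA PK (1 + xA i) = _
  rw [map_add, map_one]; rfl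

/-- The main lemma. -/
theorem main_lemma {m q : ℕ} (hmq : m ≤ q) {V : Submodule k0 PK} (hV : V ≤ FF (q + 3))
    (hcl : ∀ a ∈ V, ∀ b ∈ V, a * δK (q + 3) b - b * δK (q + 3) a ∈ V)
    {f : PK} (hf : f ∈ V) (hfm : f ∈ FF m) (hf0 : f ≠ 0) (hne : ¬ V ≤ FF (q + 2)) :
    V = FF (q + 3) := by
  -- first reduction
  obtain ⟨a, κ, hκ, hκ0, haf, ha⟩ := scale (q + 2) hf0
  have haV : algebraMap PA PK a ∈ V := by
    rw [haf]; exact Red.mul_mem_V hκ hf
  have haF : algebraMap PA PK a ∈ FF m := by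
    rw [haf]; exact FF_mul (FF_k hκ) hfm
  have hEa : ∀ j, m ≤ j → EA j a = 0 := by
    intro j hj
    have := haF j hj
    rwa [EK_alg, map_eq_zero_iff _ PK_inj] at this
  have hEev : ∀ n j, m ≤ j → EA j (evn n a) = 0 := by
    intro n j hj
    rw [← evn_EA, hEa j hj, map_zero]
  let C1 : Ctx (RD (q + 2)) V :=
    { hV := by
        intro x hx y hy
        rw [RD_br]; exact hcl x hx y hy
      f := a
      hf := haV
      Ef := hEa (q + 2) (by omega)
      f0 := ha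
      dc := dc_ne (hEev _ (q + 1) (by omega)) ha }
  have hE1 : ∃ v ∈ V, (RD (q + 2)).E v ≠ 0 := by
    by_contra hcon
    push Not at hcon
    apply hne
    intro v hv j hj
    rcases Nat.eq_or_lt_of_le hj with h | h
    · subst h; exact hcon v hv
    · exact hV hv j h
  obtain ⟨R1, hinv1, hfR1, hRf1, hcR1, hd1, hu1, hu1'⟩ := C1.step hE1
  set F0 : PK := algebraMap PA PK (evn (q + 2) a) with hF0
  have hfR1' : ∀ r ∈ R1, F0 * r ∈ (RD (q + 2)).Vj V 0 := hfR1
  have hd1' : ∀ r ∈ R1, F0 * δK (q + 2) r ∈ R1 := hd1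
  have hcR1' : (1 + xK (q + 1)) * F0 ∈ R1 := by
    have h1 : algebraMap PA PK (ηA (q + 2) * evn (q + 2) a) ∈ R1 := hcR1
    rwa [map_mul, η_succ] at h1
  have hF00 : F0 ≠ 0 := by
    rw [hF0, Ne, map_eq_zero_iff _ PK_inj]; exact ha
  have hF0m : F0 ∈ FF m := alg_FF haF _
  have hF0q : F0 ∈ FF (q + 2) := FF_mono (by omega) hF0m
  have hR1F : ∀ r ∈ R1, r ∈ FF (q + 2) := by
    intro r hr
    have h1 : F0 * r ∈ FF (q + 2) := by
      intro j hj
      rcases Nat.eq_or_lt_of_le hj with h | h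
      · subst h
        have := Red.Vj_eig (hfR1' r hr)
        have h2 : EK (q + 2) (F0 * r) = ((0 : ℤ) : PK) * (F0 * r) := this
        rw [h2]; simp
      · exact V'_le (q + 2) (q + 3) hV (Red.Vj_le 0 (hfR1' r hr)) j h
    have h2 := FF_mul (FF_inv hF0q) h1
    rwa [inv_mul_cancel_left₀ hF00] at h2
  -- second reduction
  let V2 : Submodule k0 PK := (Subalgebra.toSubmodule R1).map (LinearMap.mulLeft k0 F0)
  have hV2mem : ∀ r ∈ R1, F0 * r ∈ V2 := fun r hr => ⟨r, hr, rfl⟩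
  have hV2F : V2 ≤ FF (q + 2) := by
    rintro _ ⟨r, hr, rfl⟩
    exact FF_mul hF0q (hR1F r hr)
  have hcl2 : ∀ x ∈ V2, ∀ y ∈ V2, x * δK (q + 2) y - y * δK (q + 2) x ∈ V2 := by
    rintro _ ⟨r, hr, rfl⟩ _ ⟨s, hs, rfl⟩
    simp only [LinearMap.mulLeft_apply]
    have h1 : F0 * r * δK (q + 2) (F0 * s) - F0 * s * δK (q + 2) (F0 * r) =
        F0 * (r * (F0 * δK (q + 2) s) - s * (F0 * δK (q + 2) r)) := by
      rw [δK_mul, δK_mul]; ring
    rw [h1]
    exact hV2mem _ (R1.sub_mem (R1.mul_mem hr (hd1' s hs)) (R1.mul_mem hs (hd1' r hr)))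
  obtain ⟨b, lam, hlam, hlam0, hbf, hb⟩ := scale (q + 1) hF00
  have hF0V2 : F0 ∈ V2 := by
    have := hV2mem 1 R1.one_mem
    rwa [mul_one] at this
  have hbV2 : algebraMap PA PK b ∈ V2 := by
    rw [hbf]; exact Red.mul_mem_V hlam hF0V2
  have hbF : algebraMap PA PK b ∈ FF m := by
    rw [hbf]; exact FF_mul (FF_k hlam) hF0m
  have hEb : ∀ j, m ≤ j → EA j b = 0 := by
    intro j hj
    have := hbF j hj
    rwa [EK_alg, map_eq_zero_iff _ PK_inj] at this
  have hEbv : ∀ n j, m ≤ j → EA j (evn n b) = 0 := by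
    intro n j hj
    rw [← evn_EA, hEb j hj, map_zero]
  let C2 : Ctx (RD (q + 1)) V2 :=
    { hV := by
        intro x hx y hy
        rw [RD_br]; exact hcl2 x hx y hy
      f := b
      hf := hbV2
      Ef := hEb (q + 1) (by omega)
      f0 := hb
      dc := dc_ne (hEbv _ q hmq) hb }
  have hv2 : F0 * ((1 + xK (q + 1)) * F0) ∈ V2 := hV2mem _ hcR1'
  have hE2 : ∃ v ∈ V2, (RD (q + 1)).E v ≠ 0 := by
    refine ⟨_, hv2, ?_⟩
    show EK (q + 1) _ ≠ 0
    have h1 : EK (q + 1) F0 = 0 := hF0m (q + 1) (by omega)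
    have h2 : EK (q + 1) (F0 * ((1 + xK (q + 1)) * F0)) = F0 * (F0 * xK (q + 1)) := by
      rw [EK_mul, EK_mul, h1, map_add, Derivation.map_one_eq_zero, EK_x, if_pos rfl]; ring
    rw [h2]
    exact mul_ne_zero hF00 (mul_ne_zero hF00 (xK_ne _))
  obtain ⟨R2, hinv2, hfR2, hRf2, hcR2, hd2, hu2, hu2'⟩ := C2.step hE2
  set F2 : PK := algebraMap PA PK (evn (q + 1) b) with hF2
  have hF20 : F2 ≠ 0 := by
    rw [hF2, Ne, map_eq_zero_iff _ PK_inj]; exact hb
  have hF2R : F2 ∈ R2 := by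
    -- the element b ^ 2 (1 + x) lies in V2
    have h1 : algebraMap PA PK (b * b * (1 + xA (q + 1))) ∈ V2 := by
      have h2 : algebraMap PA PK (b * b * (1 + xA (q + 1))) =
          (lam * lam) * (F0 * ((1 + xK (q + 1)) * F0)) := by
        rw [map_mul, map_mul, hbf, map_add, map_one]
        show _ * (1 + xK (q + 1)) = _
        ring
      rw [h2]
      exact Red.mul_mem_V (k0.mul_mem hlam hlam) hv2
    have h3 : algebraMap PA PK (evn (q + 1) (b * b * (1 + xA (q + 1)))) ∈ (RD (q + 1)).V' V2 :=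
      Red.mem_V' ⟨_, h1, rfl⟩
    have h4 := C2.p_mem 0 h3
    have h5 : algebraMap PA PK (evn (q + 1) (b * b * (1 + xA (q + 1)))) =
        F2 * F2 * (1 + xK (q + 1)) := by
      rw [map_mul, map_mul, map_add, map_one, evn_x, map_mul, map_mul, map_add, map_one]; rfl
    have hEF2 : EK (q + 1) F2 = 0 := by
      rw [hF2, EK_alg, hEbv _ _ (by omega), map_zero]
    have h6 : (RD (q + 1)).pK 0 (F2 * F2 * (1 + xK (q + 1))) = F2 * F2 := by
      have h7 : EK (q + 1) (F2 * F2 * (1 + xK (q + 1))) = F2 * F2 * xK (q + 1) := by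
        rw [EK_mul, EK_mul, hEF2, map_add, Derivation.map_one_eq_zero, EK_x, if_pos rfl]; ring
      have h8 : EK (q + 1) (F2 * F2 * xK (q + 1)) = F2 * F2 * xK (q + 1) := by
        rw [EK_mul, EK_mul, hEF2, EK_x, if_pos rfl]; ring
      show ((1 - 0 ^ 2 : ℤ) : PK) * (F2 * F2 * (1 + xK (q + 1))) + ((2 * 0 : ℤ) : PK) *
        EK (q + 1) (F2 * F2 * (1 + xK (q + 1))) -
        EK (q + 1) (EK (q + 1) (F2 * F2 * (1 + xK (q + 1)))) = _
      rw [h7, h8]
      push_cast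
      ring
    rw [h5, h6] at h4
    have h7 : F2⁻¹ * (F2 * F2) ∈ R2 := hRf2 _ h4
    rwa [inv_mul_cancel_left₀ hF20] at h7
  have hδR : ∀ r ∈ R2, δK (q + 1) r ∈ R2 := by
    intro r hr
    have h1 : F2 * δK (q + 1) r ∈ R2 := hd2 r hr
    have h2 := R2.mul_mem (hinv2 _ hF2R) h1
    rwa [inv_mul_cancel_left₀ hF20] at h2
  have hηx : ∀ i, algebraMap PA PK (ηA (i + 1)) ∈ R2 → xK i ∈ R2 := by
    intro i hi
    rw [η_succ] at hi
    have := R2.sub_mem hi R2.one_mem
    rwa [add_sub_cancel_left] at this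
  have hxq : xK q ∈ R2 := by
    apply hηx
    have h1 : algebraMap PA PK (ηA (q + 1) * evn (q + 1) b) ∈ R2 := hcR2
    rw [map_mul] at h1
    have h2 := R2.mul_mem h1 (hinv2 _ hF2R)
    rwa [mul_inv_cancel_right₀ hF20] at h2
  have hstep : ∀ i, i + 1 ≤ q → xK (i + 1) ∈ R2 → xK i ∈ R2 := by
    intro i hi hx
    apply hηx
    obtain ⟨μ, hμ, hμ0, h1⟩ := δK_x (q + 1) (i + 1) (by omega)
    have h2 := hδR _ hx
    rw [h1] at h2
    have h3 := R2.mul_mem h2 (hinv2 _ hx)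
    rw [mul_inv_cancel_right₀ (xK_ne _)] at h3
    have h4 := R2.mul_mem (R2.algebraMap_mem ⟨μ⁻¹, k0.inv_mem hμ⟩) h3
    have h5 : (algebraMap k0 PK ⟨μ⁻¹, k0.inv_mem hμ⟩) = μ⁻¹ := rfl
    rwa [h5, inv_mul_cancel_left₀ hμ0] at h4
  have hxall : ∀ j, j ≤ q → xK (q - j) ∈ R2 := by
    intro j
    induction j with
    | zero => intro _; exact hxq
    | succ j ih =>
      intro hj
      have h1 := ih (by omega)
      have h2 : q - j = (q - (j + 1)) + 1 := by omega
      rw [h2] at h1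
      exact hstep _ (by omega) h1
  have hR2F : ∀ w ∈ FF (q + 1), w ∈ R2 := by
    apply FF_le_of_x R2 hinv2 (q + 1)
    intro i hi
    have := hxall (q - i) (by omega)
    have h2 : q - (q - i) = i := by omega
    rwa [h2] at this
  have hV2eq : V2 = FF (q + 2) := full hV2F C2 R2 hfR2 hu2 hu2' hR2F
  have hR1full : ∀ w ∈ FF (q + 2), w ∈ R1 := by
    intro w hw
    have h1 : F0 * w ∈ V2 := by rw [hV2eq]; exact FF_mul hF0q hw
    obtain ⟨r, hr, hrw⟩ := h1
    have h2 : r = w := mul_left_cancel₀ hF00 hrw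
    rwa [← h2]
  exact full hV C1 R1 hfR1 hu1 hu1' hR1full

end Pool.Agent.H6
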