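import Mathlib

/-!
# The tower of fields in characteristic three
-/

set_option autoImplicit false

namespace Pool.Agent.H6

open MvPolynomial

section Ext

variable {A K : Type} [CommRing A] [Field K] [Algebra A K] [IsFractionRing A K]

/-- Extension of derivations to the fraction field. -/
theorem exists_extend (D : Derivation ℤ A A) :
    ∃ D' : Derivation ℤ K K, ∀ a, D' (algebraMap A K a) = algebraMap A K (D a) := by
  have := Algebra.FormallyEtale.of_isLocalization (Rₘ := K) (nonZeroDivisors A)
  let D1 : Derivation ℤ A K := (Algebra.linearMap A K).compDer D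
  let l := (D1.liftKaehlerDifferential.liftBaseChange K) ∘ₗ
    (KaehlerDifferential.tensorKaehlerEquivOfFormallyEtale ℤ A K).symm.toLinearMap
  refine ⟨l.compDer (KaehlerDifferential.D ℤ K), ?_⟩
  intro a
  show l (KaehlerDifferential.D ℤ K (algebraMap A K a)) = _
  simp only [l, LinearMap.comp_apply, LinearEquiv.coe_coe]
  rw [KaehlerDifferential.tensorKaehlerEquivOfFormallyEtale_symm_D_algebraMap,
    LinearMap.liftBaseChange_tmul, one_smul, Derivation.liftKaehlerDifferential_comp_D]
  rfl

end Ext

/-- The polynomial ring with variables `x_i` (left) and `t_i` (right). -/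
abbrev PA : Type := MvPolynomial (ℕ ⊕ ℕ) (ZMod 3)

/-- The function field. -/
def PK : Type := FractionRing PA

noncomputable instance : Field PK := inferInstanceAs (Field (FractionRing PA))

noncomputable instance : Algebra PA PK := inferInstanceAs (Algebra PA (FractionRing PA))

instance : IsFractionRing PA PK := inferInstanceAs (IsFractionRing PA (FractionRing PA))

/-- The variable `x_i`. -/
noncomputable def xA (i : ℕ) : PA := X (Sum.inl i)

/-- The variable `t_i`. -/
noncomputable def tA (i : ℕ) : PA := X (Sum.inr i)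

/-- The Euler derivation in the variable `x_i`, over `ZMod 3`. -/
noncomputable def EA0 (i : ℕ) : Derivation (ZMod 3) PA PA :=
  mkDerivation (ZMod 3) (fun s => if s = Sum.inl i then X s else 0)

/-- The Euler derivation in the variable `x_i`. -/
noncomputable def EA (i : ℕ) : Derivation ℤ PA PA := (EA0 i).restrictScalars ℤ

theorem EA_X (i : ℕ) (s : ℕ ⊕ ℕ) : EA i (X s) = if s = Sum.inl i then X s else 0 := by
  show EA0 i (X s) = _
  rw [EA0, mkDerivation_X]

theorem EA_C (i : ℕ) (c : ZMod 3) : EA i (C c) = 0 := by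
  show EA0 i (C c) = _
  exact derivation_C _ _

theorem three_PA : (3 : PA) = 0 := by
  have : (C (3 : ZMod 3) : PA) = 0 := by
    have h : (3 : ZMod 3) = 0 := by decide
    rw [h, map_zero]
  rwa [map_ofNat] at this

/-- The substitution `t_n = 0`. -/
noncomputable def evn (n : ℕ) : PA →+* PA :=
  (aeval (fun s => if s = Sum.inr n then (0 : PA) else X s) : PA →ₐ[ZMod 3] PA).toRingHom

theorem evn_X (n : ℕ) (s : ℕ ⊕ ℕ) : evn n (X s) = if s = Sum.inr n then (0 : PA) else X s := by
  simp [evn]

theorem evn_C (n : ℕ) (c : ZMod 3) : evn n (C c) = C c := by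
  simp [evn]

theorem evn_EA (n i : ℕ) (a : PA) : evn n (EA i a) = EA i (evn n a) := by
  induction a using MvPolynomial.induction_on with
  | C c => rw [EA_C, map_zero, evn_C, EA_C]
  | add p q hp hq => rw [map_add, map_add, map_add, map_add, hp, hq]
  | mul_X p s hp =>
    rw [Derivation.leibniz, map_add, map_mul (evn n) p, Derivation.leibniz, smul_eq_mul,
      smul_eq_mul, smul_eq_mul, smul_eq_mul, map_mul, map_mul, hp]
    congr 1
    rw [EA_X, evn_X]
    by_cases h : s = Sum.inl i
    · subst h; simp [evn_X, EA_X]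
    · by_cases h' : s = Sum.inr n
      · simp [h']
      · simp [h, h', EA_X]

theorem evn_idem (n : ℕ) (a : PA) : evn n (evn n a) = evn n a := by
  induction a using MvPolynomial.induction_on with
  | C c => rw [evn_C, evn_C]
  | add p q hp hq => rw [map_add, map_add, hp, hq]
  | mul_X p s hp =>
    rw [map_mul, map_mul, hp, evn_X]
    by_cases h' : s = Sum.inr n
    · simp [h']
    · simp [h', evn_X]

theorem evn_sub (n : ℕ) (a : PA) : tA n ∣ a - evn n a := by
  induction a using MvPolynomial.induction_on with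
  | C c => rw [evn_C, sub_self]; exact dvd_zero _
  | add p q hp hq =>
    rw [map_add]
    have : p + q - (evn n p + evn n q) = (p - evn n p) + (q - evn n q) := by ring
    rw [this]; exact dvd_add hp hq
  | mul_X p s hp =>
    rw [map_mul]
    have h1 : p * X s - evn n p * evn n (X s) = (p - evn n p) * X s +
      evn n p * (X s - evn n (X s)) := by ring
    rw [h1]
    apply dvd_add (Dvd.dvd.mul_right hp _)
    apply Dvd.dvd.mul_left
    rw [evn_X]
    by_cases h' : s = Sum.inr n
    · simp [h', tA]
    · simp [h']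

theorem evn_ker (n : ℕ) (a : PA) (h : evn n a = 0) : ∃ b, a = tA n * b := by
  have := evn_sub n a
  rwa [h, sub_zero] at this

theorem evn_t (n : ℕ) : evn n (tA n) = 0 := by simp [tA, evn_X]

theorem evn_t_ne {n j : ℕ} (h : j ≠ n) : evn n (tA j) = tA j := by simp [tA, evn_X, h]

theorem evn_x (n j : ℕ) : evn n (xA j) = xA j := by simp [xA, evn_X]

theorem evn_ord (n : ℕ) (a : PA) (ha : a ≠ 0) : ∃ (l : ℕ) (b : PA), a = tA n ^ l * b ∧
    evn n b ≠ 0 := by
  have hu : ¬ IsUnit (tA n) := by
    intro h
    have := h.map (evn n)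
    rw [evn_t] at this
    exact not_isUnit_zero this
  obtain ⟨l, b, hb, hab⟩ := WfDvdMonoid.max_power_factor' ha hu
  exact ⟨l, b, hab, fun h => hb (evn_ker n b h)⟩

theorem EA_mul (i : ℕ) (a b : PA) : EA i (a * b) = a * EA i b + b * EA i a := by
  rw [Derivation.leibniz]; rfl

theorem EA_comm (i j : ℕ) (a : PA) : EA i (EA j a) = EA j (EA i a) := by
  induction a using MvPolynomial.induction_on with
  | C c => rw [EA_C, EA_C, map_zero, map_zero]
  | add p q hp hq => simp only [map_add, hp, hq]
  | mul_X p s hp =>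
    have hs : EA i (EA j (X s)) = EA j (EA i (X s)) := by
      rw [EA_X, EA_X]
      by_cases h : s = Sum.inl i
      · by_cases h' : s = Sum.inl j
        · have : i = j := by
            rw [h, Sum.inl.injEq] at h'; exact h'
          subst this
          rfl
        · rw [if_neg h', if_pos h, EA_X, if_neg h', map_zero]
      · by_cases h' : s = Sum.inl j
        · rw [if_neg h, if_pos h', EA_X, if_neg h, map_zero]
        · rw [if_neg h, if_neg h', map_zero, map_zero]
    simp only [EA_mul, map_add, hp, hs]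
    ring

theorem EA_cube (i : ℕ) (a : PA) : EA i (EA i (EA i a)) = EA i a := by
  induction a using MvPolynomial.induction_on with
  | C c => rw [EA_C, map_zero, map_zero]
  | add p q hp hq => simp only [map_add, hp, hq]
  | mul_X p s hp =>
    have hs : EA i (EA i (EA i (X s))) = EA i (X s) := by
      by_cases h : s = Sum.inl i
      · simp only [EA_X, if_pos h]
      · simp only [EA_X, if_neg h, map_zero]
    simp only [EA_mul, map_add, hp, hs]
    linear_combination (EA i (EA i p) * EA i (X s) + EA i p * EA i (EA i (X s))) * three_PA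

theorem EA_x (i j : ℕ) : EA i (xA j) = if j = i then xA j else 0 := by
  rw [xA, EA_X]; simp

theorem EA_t (i j : ℕ) : EA i (tA j) = 0 := by
  rw [tA, EA_X]; simp

theorem EA_fin (a : PA) : ∃ N, ∀ j, N ≤ j → EA j a = 0 := by
  induction a using MvPolynomial.induction_on with
  | C c => exact ⟨0, fun j _ => EA_C j c⟩
  | add p q hp hq => 
    obtain ⟨N, hN⟩ := hp
    obtain ⟨M, hM⟩ := hq
    exact ⟨max N M, fun j hj => by
      rw [map_add, hN j (le_trans (le_max_left _ _) hj), hM j (le_trans (le_max_right _ _) hj),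
        add_zero]⟩
  | mul_X p s hp =>
    obtain ⟨N, hN⟩ := hp
    have : ∃ M, ∀ j, M ≤ j → EA j (X s : PA) = 0 := by
      rcases s with i | i
      · exact ⟨i + 1, fun j hj => by
          rw [EA_X, if_neg]
          intro h
          rw [Sum.inl.injEq] at h
          omega⟩
      · exact ⟨0, fun j _ => by rw [EA_X, if_neg]; simp⟩
    obtain ⟨M, hM⟩ := this
    exact ⟨max N M, fun j hj => by
      rw [EA_mul, hN j (le_trans (le_max_left _ _) hj), hM j (le_trans (le_max_right _ _) hj),
        mul_zero, mul_zero, add_zero]⟩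

/-! ### The field `K` -/

/-- The Euler derivation on the function field. -/
noncomputable def EK (i : ℕ) : Derivation ℤ PK PK := (exists_extend (K := PK) (EA i)).choose

theorem EK_alg (i : ℕ) (a : PA) : EK i (algebraMap PA PK a) = algebraMap PA PK (EA i a) :=
  (exists_extend (K := PK) (EA i)).choose_spec a

theorem EK_mul (i : ℕ) (a b : PK) : EK i (a * b) = a * EK i b + b * EK i a := by
  rw [Derivation.leibniz]; rfl

theorem three_PK : (3 : PK) = 0 := by
  have := congrArg (algebraMap PA PK) three_PA
  rwa [map_ofNat, map_zero] at this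

theorem EK_cube_elt (i : ℕ) (a : PK) : EK i (a ^ 3) = 0 := by
  rw [Derivation.leibniz_pow]
  simp only [smul_eq_mul, nsmul_eq_mul]
  have := three_PK
  push_cast
  rw [this]; ring

theorem EK_cube_mul (i : ℕ) (a b : PK) : EK i (a ^ 3 * b) = a ^ 3 * EK i b := by
  rw [EK_mul, EK_cube_elt, mul_zero, add_zero]

theorem PK_frac (w : PK) : ∃ (b a : PA), b ≠ 0 ∧
    algebraMap PA PK a = (algebraMap PA PK b) ^ 3 * w := by
  obtain ⟨a, b, hb, rfl⟩ := IsFractionRing.div_surjective (A := PA) w
  have hb0 : b ≠ 0 := nonZeroDivisors.ne_zero hb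
  refine ⟨b, a * b ^ 2, hb0, ?_⟩
  have : algebraMap PA PK b ≠ 0 := by
    rw [Ne, map_eq_zero_iff _ (IsFractionRing.injective PA PK)]; exact hb0
  rw [map_mul, map_pow]
  field_simp

theorem PK_inj : Function.Injective (algebraMap PA PK) := IsFractionRing.injective PA PK

/-- Transfer of identities from `PA` to `PK`. -/
theorem PK_transfer (T : PK → PK) (hT : ∀ a b : PK, T (a ^ 3 * b) = a ^ 3 * T b)
    (h : ∀ a : PA, T (algebraMap PA PK a) = 0) (w : PK) : T w = 0 := by
  obtain ⟨b, a, hb, hab⟩ := PK_frac w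
  have h1 := h a
  rw [hab, hT] at h1
  refine (mul_eq_zero.mp h1).resolve_left (pow_ne_zero _ ?_)
  rw [Ne, map_eq_zero_iff _ PK_inj]; exact hb

theorem EK_comm (i j : ℕ) (w : PK) : EK i (EK j w) = EK j (EK i w) := by
  rw [← sub_eq_zero]
  apply PK_transfer (fun w => EK i (EK j w) - EK j (EK i w))
  · intro a b; simp only [EK_cube_mul]; ring
  · intro a; simp only [EK_alg]; rw [EA_comm, sub_self]

theorem EK_cube (i : ℕ) (w : PK) : EK i (EK i (EK i w)) = EK i w := by
  rw [← sub_eq_zero]
  apply PK_transfer (fun w => EK i (EK i (EK i w)) - EK i w)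
  · intro a b; simp only [EK_cube_mul]; ring
  · intro a; simp only [EK_alg]; rw [EA_cube, sub_self]

theorem EK_fin (w : PK) : ∃ N, ∀ j, N ≤ j → EK j w = 0 := by
  obtain ⟨b, a, hb, hab⟩ := PK_frac w
  obtain ⟨N, hN⟩ := EA_fin a
  refine ⟨N, fun j hj => ?_⟩
  have h1 : EK j (algebraMap PA PK a) = 0 := by rw [EK_alg, hN j hj, map_zero]
  rw [hab, EK_cube_mul] at h1
  refine (mul_eq_zero.mp h1).resolve_left (pow_ne_zero _ ?_)
  rw [Ne, map_eq_zero_iff _ PK_inj]; exact hb

/-- The variable `x_i` in the function field. -/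
noncomputable def xK (i : ℕ) : PK := algebraMap PA PK (xA i)

/-- The variable `t_i` in the function field. -/
noncomputable def tK (i : ℕ) : PK := algebraMap PA PK (tA i)

theorem xA_ne (i : ℕ) : xA i ≠ 0 := X_ne_zero _

theorem tA_ne (i : ℕ) : tA i ≠ 0 := X_ne_zero _

theorem xK_ne (i : ℕ) : xK i ≠ 0 := by
  rw [xK, Ne, map_eq_zero_iff _ PK_inj]; exact xA_ne i

theorem tK_ne (i : ℕ) : tK i ≠ 0 := by
  rw [tK, Ne, map_eq_zero_iff _ PK_inj]; exact tA_ne i

theorem EK_x (i j : ℕ) : EK i (xK j) = if j = i then xK j else 0 := by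
  rw [xK, EK_alg, EA_x]
  split_ifs <;> simp

theorem EK_t (i j : ℕ) : EK i (tK j) = 0 := by
  rw [tK, EK_alg, EA_t, map_zero]

/-- The field of constants. -/
noncomputable def k0 : Subfield PK where
  carrier := {w | ∀ i, EK i w = 0}
  mul_mem' := by
    intro a b ha hb i
    rw [EK_mul, ha i, hb i]; simp
  one_mem' := fun i => Derivation.map_one_eq_zero _
  add_mem' := by
    intro a b ha hb i
    rw [map_add, ha i, hb i, add_zero]
  zero_mem' := fun i => map_zero _
  neg_mem' := by
    intro a ha i
    rw [map_neg, ha i, neg_zero]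
  inv_mem' := by
    intro a ha i
    by_cases h0 : a = 0
    · rw [h0, inv_zero, map_zero]
    · have h1 : EK i (a * a⁻¹) = 0 := by
        rw [mul_inv_cancel₀ h0]; exact Derivation.map_one_eq_zero _
      rw [EK_mul, ha i, mul_zero, add_zero] at h1
      exact (mul_eq_zero.mp h1).resolve_left h0

theorem mem_k0 {w : PK} : w ∈ k0 ↔ ∀ i, EK i w = 0 := Iff.rfl

theorem cube_mem (w : PK) : w ^ 3 ∈ k0 := fun i => EK_cube_elt i w

theorem t_mem (i : ℕ) : tK i ∈ k0 := fun j => EK_t j i

theorem EK_k {c : PK} (hc : c ∈ k0) (i : ℕ) : EK i c = 0 := hc i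

theorem EK_smul (i : ℕ) (c : k0) (w : PK) : EK i (c • w) = c • EK i w := by
  rw [Subfield.smul_def, smul_eq_mul, EK_mul, EK_k c.2, mul_zero, add_zero]; rfl

end Pool.Agent.H6
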