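import Pool.Agent.H6.LieRed
import Pool.Agent.H6.LieTower

/-!
# The derivations `δ_n`, the fields `F_n` and the main lemma
-/

set_option autoImplicit false

namespace Pool.Agent.H6

open MvPolynomial

/-- `η_0 = 1`, `η_{n+1} = 1 + x_n`. -/
noncomputable def ηA : ℕ → PA
  | 0 => 1
  | n + 1 => 1 + xA n

/-- `δ_0 = 0`, `δ_{n+1} = t_n δ_n + η_n E_n`, on polynomials. -/
noncomputable def δA : ℕ → Derivation ℤ PA PA
  | 0 => 0
  | n + 1 => tA n • δA n + ηA n • EA n

/-- `δ_0 = 0`, `δ_{n+1} = t_n δ_n + η_n E_n`. -/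
noncomputable def δK : ℕ → Derivation ℤ PK PK
  | 0 => 0
  | n + 1 => tK n • δK n + algebraMap PA PK (ηA n) • EK n

theorem δA_zero (a : PA) : δA 0 a = 0 := rfl

theorem δA_succ (n : ℕ) (a : PA) : δA (n + 1) a = tA n * δA n a + ηA n * EA n a := rfl

theorem δK_zero (a : PK) : δK 0 a = 0 := rfl

theorem δK_succ (n : ℕ) (a : PK) :
    δK (n + 1) a = tK n * δK n a + algebraMap PA PK (ηA n) * EK n a := rfl

theorem δA_mul (n : ℕ) (a b : PA) : δA n (a * b) = a * δA n b + b * δA n a := by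
  rw [Derivation.leibniz]; rfl

theorem δK_mul (n : ℕ) (a b : PK) : δK n (a * b) = a * δK n b + b * δK n a := by
  rw [Derivation.leibniz]; rfl

theorem δ_alg (n : ℕ) (a : PA) : δK n (algebraMap PA PK a) = algebraMap PA PK (δA n a) := by
  induction n with
  | zero => rw [δK_zero, δA_zero, map_zero]
  | succ n ih => rw [δK_succ, δA_succ, ih, EK_alg, map_add, map_mul, map_mul]; rfl

theorem E_η {n j : ℕ} (h : n ≤ j) : EA j (ηA n) = 0 := by
  cases n with
  | zero => exact Derivation.map_one_eq_zero _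
  | succ n =>
    show EA j (1 + xA n) = 0
    rw [map_add, Derivation.map_one_eq_zero, EA_x, if_neg (by omega), add_zero]

theorem η_ne (n : ℕ) : ηA n ≠ 0 := by
  cases n with
  | zero => exact one_ne_zero
  | succ n =>
    intro h
    have h1 : EA n (ηA (n + 1)) = 0 := by rw [h, map_zero]
    have h2 : EA n (ηA (n + 1)) = xA n := by
      show EA n (1 + xA n) = _
      rw [map_add, Derivation.map_one_eq_zero, EA_x, if_pos rfl, zero_add]
    exact xA_ne n (by rw [← h2, h1])

theorem δA_comm {n j : ℕ} (h : n ≤ j) (a : PA) : EA j (δA n a) = δA n (EA j a) := by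
  induction n with
  | zero => rw [δA_zero, δA_zero, map_zero]
  | succ n ih =>
    rw [δA_succ, δA_succ, map_add, EA_mul, EA_mul, EA_t, E_η (by omega), ih (by omega),
      EA_comm j n]
    ring

theorem δK_comm {n j : ℕ} (h : n ≤ j) (a : PK) : EK j (δK n a) = δK n (EK j a) := by
  have hη : EK j (algebraMap PA PK (ηA n)) = 0 := by rw [EK_alg, E_η h, map_zero]
  induction n with
  | zero => rw [δK_zero, δK_zero, map_zero]
  | succ n ih =>
    have hη' : EK j (algebraMap PA PK (ηA n)) = 0 := by rw [EK_alg, E_η (by omega), map_zero]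
    rw [δK_succ, δK_succ, map_add, EK_mul, EK_mul, EK_t, hη', ih (by omega) hη', EK_comm j n]
    ring

theorem δK_k {c : PK} (hc : c ∈ k0) (n : ℕ) : δK n c = 0 := by
  induction n with
  | zero => rfl
  | succ n ih => rw [δK_succ, ih, EK_k hc]; ring

theorem evn_η (m n : ℕ) : evn m (ηA n) = ηA n := by
  cases n with
  | zero => exact map_one _
  | succ n =>
    show evn m (1 + xA n) = 1 + xA n
    rw [map_add, map_one, evn_x]

theorem evn_δ {n m : ℕ} (h : n ≤ m) (a : PA) : evn m (δA n a) = δA n (evn m a) := by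
  induction n with
  | zero => rw [δA_zero, δA_zero, map_zero]
  | succ n ih =>
    rw [δA_succ, δA_succ, map_add, map_mul, map_mul, evn_t_ne (by omega), evn_η, ih (by omega),
      evn_EA]

/-- The reduction data at level `n`. -/
noncomputable def RD (n : ℕ) : Red PA PK k0 where
  E := EK n
  d := δK n
  EA := EA n
  dA := δA n
  ev := evn n
  t := tA n
  η := ηA n
  inj := PK_inj
  three := three_PA
  hE := EK_alg n
  hd := δ_alg n
  Ek := fun c hc => EK_k hc n
  dk := fun c hc => δK_k hc n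
  cube := cube_mem
  comm := fun a => δA_comm le_rfl a
  EEE := EA_cube n
  evE := fun a => evn_EA n n a
  evd := fun a => evn_δ le_rfl a
  evt := evn_t n
  evη := evn_η n n
  idem := evn_idem n
  tk := t_mem n
  t0 := tA_ne n
  η0 := η_ne n
  Eη := E_η le_rfl
  ker := evn_ker n
  ord := evn_ord n
  evk := by
    intro a ha i
    rw [EK_alg, ← evn_EA]
    have h1 := ha i
    rw [EK_alg, map_eq_zero_iff _ PK_inj] at h1
    rw [h1, map_zero, map_zero]
  frac := PK_frac

theorem RD_br (n : ℕ) (a b : PK) : (RD n).br a b = a * δK (n + 1) b - b * δK (n + 1) a := by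
  rw [δK_succ, δK_succ]
  show tK n * (a * δK n b - b * δK n a) + algebraMap PA PK (ηA n) * (a * EK n b - b * EK n a) = _
  ring

/-- The field `F_n = k(x_0, ..., x_{n-1})`, as a subspace. -/
noncomputable def FF (n : ℕ) : Submodule k0 PK where
  carrier := {w | ∀ j, n ≤ j → EK j w = 0}
  add_mem' := by
    intro a b ha hb j hj
    rw [map_add, ha j hj, hb j hj, add_zero]
  zero_mem' := fun j _ => map_zero _
  smul_mem' := by
    intro c w hw j hj
    rw [EK_smul, hw j hj, smul_zero]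

theorem mem_FF {n : ℕ} {w : PK} : w ∈ FF n ↔ ∀ j, n ≤ j → EK j w = 0 := Iff.rfl

theorem FF_mono {m n : ℕ} (h : m ≤ n) : FF m ≤ FF n := fun _ hw j hj => hw j (le_trans h hj)

theorem FF_mul {n : ℕ} {v w : PK} (hv : v ∈ FF n) (hw : w ∈ FF n) : v * w ∈ FF n := by
  intro j hj
  rw [EK_mul, hv j hj, hw j hj]; ring

theorem FF_inv {n : ℕ} {v : PK} (hv : v ∈ FF n) : v⁻¹ ∈ FF n := by
  intro j hj
  by_cases h0 : v = 0
  · rw [h0, inv_zero, map_zero]
  · have h1 : EK j (v * v⁻¹) = 0 := by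
      rw [mul_inv_cancel₀ h0]; exact Derivation.map_one_eq_zero _
    rw [EK_mul, hv j hj, mul_zero, add_zero] at h1
    exact (mul_eq_zero.mp h1).resolve_left h0

theorem FF_k {n : ℕ} {c : PK} (hc : c ∈ k0) : c ∈ FF n := fun j _ => hc j

theorem FF_one (n : ℕ) : (1 : PK) ∈ FF n := FF_k k0.one_mem

theorem FF_x {i n : ℕ} (h : i < n) : xK i ∈ FF n := by
  intro j hj
  rw [EK_x, if_neg (by omega)]

theorem x_not_FF (n : ℕ) : xK n ∉ FF n := by
  intro h
  have := h n le_rfl
  rw [EK_x, if_pos rfl] at this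
  exact xK_ne n this

theorem FF_all (w : PK) : ∃ n, w ∈ FF n := EK_fin w

theorem FF_η {n : ℕ} : algebraMap PA PK (ηA n) ∈ FF n := by
  intro j hj
  rw [EK_alg, E_η hj, map_zero]

theorem FF_δ {n : ℕ} {w : PK} (hw : w ∈ FF n) : δK n w ∈ FF n := by
  intro j hj
  rw [δK_comm hj, hw j hj, map_zero]

theorem δK_succ_FF {n : ℕ} {w : PK} (hw : w ∈ FF n) : δK (n + 1) w = tK n * δK n w := by
  rw [δK_succ, hw n le_rfl, mul_zero, add_zero]

/-- Quotients of eigenvectors. -/
theorem E_div {n : ℕ} {c : PK} {v u : PK} (hu0 : u ≠ 0) (hv : EK n v = c * v)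
    (hu : EK n u = c * u) : EK n (v * u⁻¹) = 0 := by
  have h1 : EK n (u * (v * u⁻¹)) = EK n v := by
    congr 1; field_simp
  rw [EK_mul, hv, hu] at h1
  have h2 : u * EK n (v * u⁻¹) = 0 := by
    have h3 : v * u⁻¹ * (c * u) = c * v := by field_simp
    rw [h3] at h1
    linear_combination h1
  exact (mul_eq_zero.mp h2).resolve_left hu0

theorem FF_div {n : ℕ} {c : PK} {v u : PK} (hv' : v ∈ FF (n + 1)) (hu' : u ∈ FF (n + 1))
    (hu0 : u ≠ 0) (hv : EK n v = c * v) (hu : EK n u = c * u) : v * u⁻¹ ∈ FF n := by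
  intro j hj
  rcases Nat.eq_or_lt_of_le hj with h | h
  · subst h; exact E_div hu0 hv hu
  · exact FF_mul hv' (FF_inv hu') j h

theorem pK_FF (n : ℕ) (j : ℤ) {w : PK} (hw : w ∈ FF (n + 1)) : (RD n).pK j w ∈ FF (n + 1) := by
  have hE : ∀ {v}, v ∈ FF (n + 1) → EK n v ∈ FF (n + 1) := by
    intro v hv i hi
    rw [EK_comm, hv i hi, map_zero]
  have hi : ∀ m : ℤ, (m : PK) ∈ FF (n + 1) := fun m => FF_k (intCast_mem k0 m)
  show ((1 - j ^ 2 : ℤ) : PK) * w + ((2 * j : ℤ) : PK) * EK n w - EK n (EK n w) ∈ FF (n + 1)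
  exact sub_mem (add_mem (FF_mul (hi _) hw) (FF_mul (hi _) (hE hw))) (hE (hE hw))

theorem E_pK (n : ℕ) (j : ℤ) (w : PK) : EK n ((RD n).pK j w) = j * (RD n).pK j w := by
  rw [← sub_eq_zero]
  apply PK_transfer (fun w => EK n ((RD n).pK j w) - j * (RD n).pK j w)
  · intro a b
    have h : (RD n).pK j (a ^ 3 * b) = a ^ 3 * (RD n).pK j b := by
      show ((1 - j ^ 2 : ℤ) : PK) * (a ^ 3 * b) + ((2 * j : ℤ) : PK) * EK n (a ^ 3 * b) -
        EK n (EK n (a ^ 3 * b)) = a ^ 3 * (((1 - j ^ 2 : ℤ) : PK) * b +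
        ((2 * j : ℤ) : PK) * EK n b - EK n (EK n b))
      simp only [EK_cube_mul]; ring
    simp only [h, EK_cube_mul]; ring
  · intro a
    have h1 := (RD n).E_pA j a
    simp only [(RD n).pK_alg j a, EK_alg]
    have h2 : EA n ((RD n).pA j a) = j * (RD n).pA j a := h1
    rw [h2, map_mul, map_intCast, sub_self]

instance FF_fin (n : ℕ) : FiniteDimensional k0 (FF n) := by
  induction n with
  | zero =>
    have h : FF 0 ≤ Submodule.span k0 {(1 : PK)} := by
      intro w hw
      rw [Submodule.mem_span_singleton]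
      refine ⟨⟨w, fun i => hw i (Nat.zero_le i)⟩, ?_⟩
      rw [Subfield.smul_def, smul_eq_mul, mul_one]
    exact Submodule.finiteDimensional_of_le h
  | succ n ih =>
    have h : FF (n + 1) ≤ FF n ⊔ ((FF n).map (LinearMap.mulLeft k0 (xK n))) ⊔
        ((FF n).map (LinearMap.mulLeft k0 (xK n)⁻¹)) := by
      intro w hw
      have h1 := (RD n).pK_sum w
      rw [← h1]
      have hx : EK n (xK n) = 1 * xK n := by rw [EK_x, if_pos rfl, one_mul]
      have hx' : EK n (xK n)⁻¹ = (-1) * (xK n)⁻¹ := by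
        have h2 : EK n (xK n * (xK n)⁻¹) = 0 := by
          rw [mul_inv_cancel₀ (xK_ne n)]; exact Derivation.map_one_eq_zero _
        rw [EK_mul, hx] at h2
        have h3 : xK n * (EK n (xK n)⁻¹ + (xK n)⁻¹) = 0 := by linear_combination h2
        have h4 := (mul_eq_zero.mp h3).resolve_left (xK_ne n)
        linear_combination h4
      have e0 := E_pK n 0 w
      have e1 := E_pK n 1 w
      have e2 := E_pK n (-1) w
      push_cast at e0 e1 e2
      refine Submodule.add_mem_sup (Submodule.add_mem_sup ?_ ?_) ?_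
      · intro j hj
        rcases Nat.eq_or_lt_of_le hj with h' | h'
        · subst h'; rw [e0, zero_mul]
        · exact pK_FF n 0 hw j h'
      · refine ⟨(RD n).pK 1 w * (xK n)⁻¹, ?_, ?_⟩
        · exact FF_div (pK_FF n 1 hw) (FF_x (Nat.lt_succ_self n)) (xK_ne n) e1 hx
        · rw [LinearMap.mulLeft_apply]
          have := xK_ne n
          field_simp
      · refine ⟨(RD n).pK (-1) w * ((xK n)⁻¹)⁻¹, ?_, ?_⟩
        · exact FF_div (pK_FF n (-1) hw) (FF_inv (FF_x (Nat.lt_succ_self n)))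
            (inv_ne_zero (xK_ne n)) e2 hx'
        · rw [LinearMap.mulLeft_apply]
          have := xK_ne n
          field_simp
    exact Submodule.finiteDimensional_of_le h

end Pool.Agent.H6
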