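import Mathlib

/-!
# Reduction step for subspaces closed under a Witt-type bracket in characteristic three
-/

set_option autoImplicit false

namespace Pool.Agent.H6

/-- Data for one reduction step. -/
structure Red (A K : Type) [CommRing A] [Field K] [Algebra A K] (k : Subfield K) where
  E : Derivation ℤ K K
  d : Derivation ℤ K K
  EA : Derivation ℤ A A
  dA : Derivation ℤ A A
  ev : A →+* A
  t : A
  η : A
  inj : Function.Injective (algebraMap A K)
  three : (3 : A) = 0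
  hE : ∀ a, E (algebraMap A K a) = algebraMap A K (EA a)
  hd : ∀ a, d (algebraMap A K a) = algebraMap A K (dA a)
  Ek : ∀ c ∈ k, E c = 0
  dk : ∀ c ∈ k, d c = 0
  cube : ∀ w : K, w ^ 3 ∈ k
  comm : ∀ a, EA (dA a) = dA (EA a)
  EEE : ∀ a, EA (EA (EA a)) = EA a
  evE : ∀ a, ev (EA a) = EA (ev a)
  evd : ∀ a, ev (dA a) = dA (ev a)
  evt : ev t = 0
  evη : ev η = η
  idem : ∀ a, ev (ev a) = ev a
  tk : algebraMap A K t ∈ k
  t0 : t ≠ 0
  η0 : η ≠ 0
  Eη : EA η = 0
  ker : ∀ a, ev a = 0 → ∃ b, a = t * b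
  ord : ∀ a, a ≠ 0 → ∃ (l : ℕ) (b : A), a = t ^ l * b ∧ ev b ≠ 0
  evk : ∀ a, algebraMap A K a ∈ k → algebraMap A K (ev a) ∈ k
  frac : ∀ w : K, ∃ (b a : A), b ≠ 0 ∧ algebraMap A K a = (algebraMap A K b) ^ 3 * w

namespace Red

variable {A K : Type} [CommRing A] [Field K] [Algebra A K] {k : Subfield K} (D : Red A K k)

include D

theorem isDomain : IsDomain A := D.inj.isDomain (algebraMap A K)

theorem Et : D.EA D.t = 0 := by
  apply D.inj
  rw [← D.hE, D.Ek _ D.tk, map_zero]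

theorem dt : D.dA D.t = 0 := by
  apply D.inj
  rw [← D.hd, D.dk _ D.tk, map_zero]

theorem threeK : (3 : K) = 0 := by
  have := congrArg (algebraMap A K) D.three
  rwa [map_ofNat, map_zero] at this

theorem cubek (a : A) : algebraMap A K (a ^ 3) ∈ k := by
  rw [map_pow]; exact D.cube _

theorem E_cube_mul (c b : A) : D.EA (c ^ 3 * b) = c ^ 3 * D.EA b := by
  have h : D.EA (c ^ 3) = 0 := by
    apply D.inj
    rw [← D.hE, D.Ek _ (D.cubek c), map_zero]
  rw [Derivation.leibniz, h, smul_zero, add_zero, smul_eq_mul]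

theorem d_cube_mul (c b : A) : D.dA (c ^ 3 * b) = c ^ 3 * D.dA b := by
  have h : D.dA (c ^ 3) = 0 := by
    apply D.inj
    rw [← D.hd, D.dk _ (D.cubek c), map_zero]
  rw [Derivation.leibniz, h, smul_zero, add_zero, smul_eq_mul]

theorem E_mul (a b : A) : D.EA (a * b) = a * D.EA b + b * D.EA a := by
  rw [Derivation.leibniz]; rfl

theorem d_mul (a b : A) : D.dA (a * b) = a * D.dA b + b * D.dA a := by
  rw [Derivation.leibniz]; rfl

theorem EK_mul (a b : K) : D.E (a * b) = a * D.E b + b * D.E a := by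
  rw [Derivation.leibniz]; rfl

theorem dK_mul (a b : K) : D.d (a * b) = a * D.d b + b * D.d a := by
  rw [Derivation.leibniz]; rfl

theorem EK_smul (c : k) (w : K) : D.E (c • w) = c • D.E w := by
  rw [Subfield.smul_def, smul_eq_mul, D.EK_mul, D.Ek _ c.2, mul_zero, add_zero]; rfl

theorem dK_smul (c : k) (w : K) : D.d (c • w) = c • D.d w := by
  rw [Subfield.smul_def, smul_eq_mul, D.dK_mul, D.dk _ c.2, mul_zero, add_zero]; rfl

/-- `E` as a `k`-linear map. -/
def EL : K →ₗ[k] K where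
  toFun := D.E
  map_add' := map_add D.E
  map_smul' := D.EK_smul

/-- `d` as a `k`-linear map. -/
def dL : K →ₗ[k] K where
  toFun := D.d
  map_add' := map_add D.d
  map_smul' := D.dK_smul

@[simp] theorem EL_apply (w : K) : D.EL w = D.E w := rfl
@[simp] theorem dL_apply (w : K) : D.dL w = D.d w := rfl

/-- The bracket `[a, b] = t (a db - b da) + η (a Eb - b Ea)` on `A`. -/
def brA (a b : A) : A :=
  D.t * (a * D.dA b - b * D.dA a) + D.η * (a * D.EA b - b * D.EA a)

/-- The bracket on `K`. -/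
def br (a b : K) : K :=
  algebraMap A K D.t * (a * D.d b - b * D.d a) + algebraMap A K D.η * (a * D.E b - b * D.E a)

theorem br_alg (a b : A) : D.br (algebraMap A K a) (algebraMap A K b) =
    algebraMap A K (D.brA a b) := by
  simp only [br, brA, D.hd, D.hE, map_add, map_sub, map_mul]

/-- Closed under the bracket. -/
def Closed (V : Submodule k K) : Prop := ∀ a ∈ V, ∀ b ∈ V, D.br a b ∈ V

/-- The reduced elements. -/
def SA (V : Submodule k K) : Set A := {b | ∃ a, algebraMap A K a ∈ V ∧ D.ev a = b}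

variable {V : Submodule k K}

omit [CommRing A] [Algebra A K] D in
theorem mul_mem_V {c w : K} (hc : c ∈ k) (hw : w ∈ V) : c * w ∈ V :=
  V.smul_mem ⟨c, hc⟩ hw

theorem of_mul_mem_V {c w : K} (hc : c ∈ k) (hc0 : c ≠ 0) (hw : c * w ∈ V) : w ∈ V := by
  have := mul_mem_V (k.inv_mem hc) hw
  rwa [inv_mul_cancel_left₀ hc0] at this

theorem tK0 : algebraMap A K D.t ≠ 0 := by
  rw [Ne, map_eq_zero_iff _ D.inj]; exact D.t0

theorem S_add {a b : A} (ha : a ∈ D.SA V) (hb : b ∈ D.SA V) : a + b ∈ D.SA V := by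
  obtain ⟨a', ha', rfl⟩ := ha
  obtain ⟨b', hb', rfl⟩ := hb
  exact ⟨a' + b', by rw [map_add]; exact V.add_mem ha' hb', map_add _ _ _⟩

theorem S_neg {a : A} (ha : a ∈ D.SA V) : -a ∈ D.SA V := by
  obtain ⟨a', ha', rfl⟩ := ha
  exact ⟨-a', by rw [map_neg]; exact V.neg_mem ha', map_neg _ _⟩

theorem S_sub {a b : A} (ha : a ∈ D.SA V) (hb : b ∈ D.SA V) : a - b ∈ D.SA V := by
  rw [sub_eq_add_neg]; exact D.S_add ha (D.S_neg hb)

theorem S_ev {a : A} (ha : a ∈ D.SA V) : D.ev a = a := by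
  obtain ⟨a', ha', rfl⟩ := ha
  exact D.idem _

theorem S_mul {c b : A} (hc : algebraMap A K c ∈ k) (hc' : D.ev c = c) (hb : b ∈ D.SA V) :
    c * b ∈ D.SA V := by
  obtain ⟨b', hb', rfl⟩ := hb
  refine ⟨c * b', ?_, ?_⟩
  · rw [map_mul]; exact mul_mem_V hc hb'
  · rw [map_mul, hc']

theorem S_int (n : ℤ) {b : A} (hb : b ∈ D.SA V) : (n : A) * b ∈ D.SA V := by
  refine D.S_mul ?_ (map_intCast _ _) hb
  rw [map_intCast]
  exact intCast_mem k n

theorem S_br (hV : D.Closed V) {a b : A} (ha : a ∈ D.SA V) (hb : b ∈ D.SA V) :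
    D.η * (a * D.EA b - b * D.EA a) ∈ D.SA V := by
  obtain ⟨a', ha', rfl⟩ := ha
  obtain ⟨b', hb', rfl⟩ := hb
  refine ⟨D.brA a' b', ?_, ?_⟩
  · rw [← D.br_alg]; exact hV _ ha' _ hb'
  · simp only [brA, map_add, map_mul, map_sub, D.evt, D.evη, D.evE, zero_mul, zero_add]

theorem E_int (j : ℤ) : D.EA (j : A) = 0 := by
  simp

theorem d_int (j : ℤ) : D.dA (j : A) = 0 := by
  simp

theorem int_cube (j : ℤ) : (j : A) ^ 3 = j := by
  have h : (3 : ℤ) ∣ j ^ 3 - j := by
    have h1 : j % 3 = 0 ∨ j % 3 = 1 ∨ j % 3 = 2 := by omega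
    rw [Int.dvd_iff_emod_eq_zero]
    rcases h1 with h1 | h1 | h1 <;>
      simp [Int.sub_emod, pow_succ, Int.mul_emod, h1]
  obtain ⟨m, hm⟩ := h
  have h2 : ((j ^ 3 - j : ℤ) : A) = ((3 * m : ℤ) : A) := by rw [hm]
  push_cast at h2
  rw [D.three, zero_mul, sub_eq_zero] at h2
  exact h2

theorem E_int_mul (n : ℤ) (b : A) : D.EA ((n : A) * b) = n * D.EA b := by
  rw [D.E_mul, D.E_int, mul_zero, add_zero]

theorem d_int_mul (n : ℤ) (b : A) : D.dA ((n : A) * b) = n * D.dA b := by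
  rw [D.d_mul, D.d_int, mul_zero, add_zero]

theorem EK_int_mul (n : ℤ) (b : K) : D.E ((n : K) * b) = n * D.E b := by
  rw [D.EK_mul, Derivation.map_intCast, mul_zero, add_zero]

/-- The projection to the eigenspace of `E` with eigenvalue `j`. -/
def pA (j : ℤ) (b : A) : A :=
  ((1 - j ^ 2 : ℤ) : A) * b + ((2 * j : ℤ) : A) * D.EA b - D.EA (D.EA b)

/-- The projection to the eigenspace of `E` with eigenvalue `j`, on `K`. -/
def pK (j : ℤ) (b : K) : K :=
  ((1 - j ^ 2 : ℤ) : K) * b + ((2 * j : ℤ) : K) * D.E b - D.E (D.E b)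

theorem pK_alg (j : ℤ) (b : A) : D.pK j (algebraMap A K b) = algebraMap A K (D.pA j b) := by
  simp only [pK, pA, D.hE, map_add, map_sub, map_mul, map_intCast]

theorem E_pA (j : ℤ) (b : A) : D.EA (D.pA j b) = j * D.pA j b := by
  have h3 := D.three
  have hj := D.int_cube j
  simp only [pA, map_add, map_sub, D.E_int_mul, D.EEE]
  push_cast
  linear_combination (j * D.EA (D.EA b) - j ^ 2 * D.EA b) * h3 + b * hj

theorem pA_eig {j : ℤ} {b : A} (hb : D.EA b = j * b) : D.pA j b = b := by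
  simp only [pA, hb, D.E_int_mul]
  push_cast
  ring

theorem pK_eig {j : ℤ} {b : K} (hb : D.E b = j * b) : D.pK j b = b := by
  simp only [pK, hb, D.EK_int_mul]
  push_cast
  ring

theorem ev_pA (j : ℤ) (b : A) : D.ev (D.pA j b) = D.pA j (D.ev b) := by
  simp only [pA, map_add, map_sub, map_mul, D.evE, map_intCast]

theorem pA_sum (b : A) : D.pA 0 b + D.pA 1 b + D.pA (-1) b = b := by
  have h3 := D.three
  simp only [pA]
  push_cast
  linear_combination (- D.EA (D.EA b)) * h3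

theorem pK_sum (b : K) : D.pK 0 b + D.pK 1 b + D.pK (-1) b = b := by
  have h3 := D.threeK
  simp only [pK]
  push_cast
  linear_combination (- D.E (D.E b)) * h3

/-- Key cancellation: the projection to eigenvalue `-j` kills `b (Eg - j g)`. -/
theorem pA_kill {j : ℤ} {η b g : A} (hη : D.EA η = 0) (hb : D.EA b = j * b) :
    D.pA (-j) (η * (b * (D.EA g - j * g))) = 0 := by
  have h3 := D.three
  have hj := D.int_cube j
  have h1 : D.EA (η * (b * (D.EA g - j * g))) =
      η * (b * (D.EA (D.EA g) - j ^ 2 * g)) := by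
    simp only [D.E_mul, hη, hb, map_sub, D.E_int]
    ring
  have h2 : D.EA (η * (b * (D.EA (D.EA g) - j ^ 2 * g))) =
      η * (b * (j * D.EA (D.EA g) - j ^ 3 * g + D.EA g - j ^ 2 * D.EA g)) := by
    have : (j : A) ^ 2 = ((j ^ 2 : ℤ) : A) := by push_cast; ring
    simp only [D.E_mul, hη, hb, map_sub, this, D.E_int, D.EEE]
    push_cast
    ring
  simp only [pA, h1, h2]
  push_cast
  linear_combination (η * b * (- j * D.EA (D.EA g) + j ^ 3 * g)) * h3 + (η * b * g) * hj

end Red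

/-- A subspace closed under the bracket with a good element `f`. -/
structure Ctx {A K : Type} [CommRing A] [Field K] [Algebra A K] {k : Subfield K} (D : Red A K k)
    (V : Submodule k K) where
  hV : D.Closed V
  f : A
  hf : algebraMap A K f ∈ V
  Ef : D.EA f = 0
  f0 : D.ev f ≠ 0
  dc : D.dA (D.η * D.ev f) ≠ 0

namespace Ctx

variable {A K : Type} [CommRing A] [Field K] [Algebra A K] {k : Subfield K} {D : Red A K k}
  {V : Submodule k K} (C : Ctx D V)

/-- The element `c = η f₀`. -/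
def c : A := D.η * D.ev C.f

theorem f0_mem : D.ev C.f ∈ D.SA V := ⟨C.f, C.hf, rfl⟩

theorem E_f0 : D.EA (D.ev C.f) = 0 := by rw [← D.evE, C.Ef, map_zero]

theorem E_c : D.EA C.c = 0 := by rw [c, D.E_mul, C.E_f0, D.Eη]; ring

theorem ev_c : D.ev C.c = C.c := by rw [c, map_mul, D.evη, D.idem]

theorem c0 : C.c ≠ 0 := by
  have := D.isDomain
  exact mul_ne_zero D.η0 C.f0

theorem S_cE {b : A} (hb : b ∈ D.SA V) : C.c * D.EA b ∈ D.SA V := by
  have := D.S_br C.hV C.f0_mem hb
  rw [C.E_f0, mul_zero, sub_zero, ← mul_assoc] at this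
  exact this

theorem S_gE {b : A} (hb : b ∈ D.SA V) : C.c ^ 3 * D.EA b ∈ D.SA V := by
  have := C.S_cE (C.S_cE (C.S_cE hb))
  have h : C.c * D.EA (C.c * D.EA (C.c * D.EA b)) = C.c ^ 3 * D.EA b := by
    simp only [D.E_mul, C.E_c, mul_zero, add_zero, D.EEE]
    ring
  rwa [h] at this

theorem S_gmul {b : A} (hb : b ∈ D.SA V) : C.c ^ 3 * b ∈ D.SA V :=
  D.S_mul (D.cubek _) (by rw [map_pow, C.ev_c]) hb

theorem S_gp (j : ℤ) {b : A} (hb : b ∈ D.SA V) : (C.c ^ 3) ^ 2 * D.pA j b ∈ D.SA V := by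
  have h : (C.c ^ 3) ^ 2 * D.pA j b = ((1 - j ^ 2 : ℤ) : A) * (C.c ^ 3 * (C.c ^ 3 * b)) +
      ((2 * j : ℤ) : A) * (C.c ^ 3 * (C.c ^ 3 * D.EA b)) -
      C.c ^ 3 * D.EA (C.c ^ 3 * D.EA b) := by
    rw [D.E_cube_mul, Red.pA]; ring
  rw [h]
  exact D.S_sub (D.S_add (D.S_int _ (C.S_gmul (C.S_gmul hb)))
    (D.S_int _ (C.S_gmul (C.S_gE hb)))) (C.S_gE (C.S_gE hb))

include C in
/-- If `E` does not vanish on `V` then it does not vanish on the reduction. -/
theorem exists_E_ne (hE : ∃ v ∈ V, D.E v ≠ 0) : ∃ b ∈ D.SA V, D.EA b ≠ 0 := by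
  classical
  have := D.isDomain
  have hex : ∃ l : ℕ, ∃ a u : A, algebraMap A K a ∈ V ∧ D.EA a = D.t ^ l * u ∧ D.ev u ≠ 0 := by
    obtain ⟨v, hv, hEv⟩ := hE
    obtain ⟨b, a, hb, ha⟩ := D.frac v
    have hb0 : algebraMap A K b ^ 3 ≠ 0 := by
      apply pow_ne_zero
      rw [Ne, map_eq_zero_iff _ D.inj]; exact hb
    have haV : algebraMap A K a ∈ V := by
      rw [ha]; exact Red.mul_mem_V (D.cube _) hv
    have hEa : D.EA a ≠ 0 := by
      intro h0
      have h1 : D.E (algebraMap A K a) = 0 := by rw [D.hE, h0, map_zero]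
      rw [ha, D.EK_mul, D.Ek _ (D.cube _), mul_zero, add_zero] at h1
      exact (mul_ne_zero hb0 hEv) h1
    obtain ⟨l, u, hu, hu'⟩ := D.ord _ hEa
    exact ⟨l, a, u, haV, hu, hu'⟩
  obtain ⟨a, u, haV, hau, hu⟩ := Nat.find_spec hex
  rcases Nat.eq_zero_or_pos (Nat.find hex) with h0 | hpos
  · rw [h0, pow_zero, one_mul] at hau
    refine ⟨D.ev a, ⟨a, haV, rfl⟩, ?_⟩
    rw [← D.evE, hau]; exact hu
  · exfalso
    obtain ⟨l, hl⟩ : ∃ l, Nat.find hex = l + 1 := ⟨Nat.find hex - 1, by omega⟩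
    have hmin := Nat.find_min hex (m := l) (by omega)
    apply hmin
    rw [hl] at hau
    have ht0 : D.t ^ (l + 1) ≠ 0 := pow_ne_zero _ D.t0
    have hEt : ∀ m : ℕ, D.EA (D.t ^ m) = 0 := by
      intro m
      rw [Derivation.leibniz_pow, D.Et]; simp
    have hdt : ∀ m : ℕ, D.dA (D.t ^ m) = 0 := by
      intro m
      rw [Derivation.leibniz_pow, D.dt]; simp
    have hEEu : D.EA (D.EA u) = u := by
      have h1 : D.EA (D.EA (D.EA a)) = D.EA a := D.EEE a
      rw [hau, D.E_mul, hEt, mul_zero, add_zero, D.E_mul, hEt, mul_zero, add_zero] at h1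
      exact mul_left_cancel₀ ht0 h1
    have hEu : D.EA (D.ev u) ≠ 0 := by
      intro h1
      apply hu
      have h2 : D.EA (D.EA (D.ev u)) = D.ev u := by rw [← D.evE, ← D.evE, hEEu]
      rw [← h2, h1, map_zero]
    refine ⟨C.f * D.dA a - a * D.dA C.f + D.η * (C.f * (D.t ^ l * u)),
      D.η * (C.f * D.EA u) + D.t * (C.f * D.dA u - u * D.dA C.f), ?_, ?_, ?_⟩
    · apply D.of_mul_mem_V D.tk D.tK0
      have h1 : algebraMap A K D.t * algebraMap A K (C.f * D.dA a - a * D.dA C.f +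
          D.η * (C.f * (D.t ^ l * u))) = D.br (algebraMap A K C.f) (algebraMap A K a) := by
        rw [D.br_alg, ← map_mul]
        congr 1
        rw [Red.brA, hau, C.Ef]; ring
      rw [h1]
      exact C.hV _ C.hf _ haV
    · have h1 : D.EA (D.dA C.f) = 0 := by rw [D.comm, C.Ef, map_zero]
      have h2 : D.EA (D.dA a) = D.t ^ (l + 1) * D.dA u := by
        rw [D.comm, hau, D.d_mul, hdt]; ring
      simp only [map_add, map_sub, D.E_mul, h1, h2, C.Ef, D.Eη, hEt, hau]
      ring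
    · rw [map_add, map_mul, map_mul, map_mul, D.evt, D.evη, zero_mul, add_zero, D.evE, ← mul_assoc]
      exact mul_ne_zero C.c0 hEu

end Ctx

namespace Red

variable {A K : Type} [CommRing A] [Field K] [Algebra A K] {k : Subfield K} (D : Red A K k)

/-- The reduction of `V`. -/
def V' (V : Submodule k K) : Submodule k K := Submodule.span k (algebraMap A K '' D.SA V)

/-- The homogeneous parts of the reduction of `V`. -/
def Vj (V : Submodule k K) (j : ℤ) : Submodule k K :=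
  Submodule.span k (algebraMap A K '' {b | b ∈ D.SA V ∧ D.EA b = j * b})

variable {D} {V : Submodule k K}

theorem Vj_le (j : ℤ) : D.Vj V j ≤ D.V' V :=
  Submodule.span_mono (Set.image_mono fun _ h => h.1)

theorem mem_V' {b : A} (hb : b ∈ D.SA V) : algebraMap A K b ∈ D.V' V :=
  Submodule.subset_span ⟨b, hb, rfl⟩

theorem mem_Vj {j : ℤ} {b : A} (hb : b ∈ D.SA V) (h : D.EA b = j * b) :
    algebraMap A K b ∈ D.Vj V j :=
  Submodule.subset_span ⟨b, ⟨hb, h⟩, rfl⟩

theorem Vj_eig {j : ℤ} {w : K} (hw : w ∈ D.Vj V j) : D.E w = j * w := by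
  induction hw using Submodule.span_induction with
  | mem x hx =>
    obtain ⟨b, ⟨_, hb⟩, rfl⟩ := hx
    rw [D.hE, hb, map_mul, map_intCast]
  | zero => simp
  | add x y _ _ hx hy => rw [map_add, hx, hy, mul_add]
  | smul c x _ hx => rw [D.EK_smul, hx, mul_smul_comm]

end Red

namespace Ctx

variable {A K : Type} [CommRing A] [Field K] [Algebra A K] {k : Subfield K} {D : Red A K k}
  {V : Submodule k K} (C : Ctx D V)

theorem cK0 : algebraMap A K C.c ≠ 0 := by
  rw [Ne, map_eq_zero_iff _ D.inj]; exact C.c0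

theorem gk : (algebraMap A K C.c ^ 3) ^ 2 ∈ k := k.pow_mem (D.cube _) 2

theorem gK0 : (algebraMap A K C.c ^ 3) ^ 2 ≠ 0 := pow_ne_zero _ (pow_ne_zero _ C.cK0)

theorem pK_smul (j : ℤ) (c : k) (w : K) : D.pK j (c • w) = c • D.pK j w := by
  simp only [Red.pK, D.EK_smul, smul_sub, smul_add, mul_smul_comm]

theorem pK_add (j : ℤ) (v w : K) : D.pK j (v + w) = D.pK j v + D.pK j w := by
  simp only [Red.pK, map_add]; ring

include C in
theorem p_mem (j : ℤ) {w : K} (hw : w ∈ D.V' V) : D.pK j w ∈ D.Vj V j := by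
  induction hw using Submodule.span_induction with
  | mem x hx =>
    obtain ⟨b, hb, rfl⟩ := hx
    apply D.of_mul_mem_V C.gk C.gK0
    rw [D.pK_alg, ← map_pow, ← map_pow, ← map_mul]
    apply Red.mem_Vj (C.S_gp j hb)
    have : (C.c ^ 3) ^ 2 = (C.c ^ 2) ^ 3 := by ring
    rw [this, D.E_cube_mul, D.E_pA]; ring
  | zero => 
    have : D.pK j 0 = 0 := by simp [Red.pK]
    rw [this]; exact zero_mem _
  | add x y _ _ hx hy => rw [pK_add]; exact add_mem hx hy
  | smul c x _ hx => rw [pK_smul]; exact Submodule.smul_mem _ _ hx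

include C in
theorem mem_Vj_of {j : ℤ} {w : K} (hw : w ∈ D.V' V) (h : D.E w = j * w) : w ∈ D.Vj V j := by
  have := C.p_mem j hw
  rwa [D.pK_eig h] at this

include C in
theorem mul_ij {i j : ℤ} (hij : ((j - i : ℤ) : A) ^ 2 = 1) {v w : K} (hv : v ∈ D.Vj V i)
    (hw : w ∈ D.Vj V j) : algebraMap A K D.η * v * w ∈ D.Vj V (i + j) := by
  induction hv, hw using Submodule.span_induction₂ with
  | mem_mem x y hx hy =>
    obtain ⟨a, ⟨ha, ha'⟩, rfl⟩ := hx
    obtain ⟨b, ⟨hb, hb'⟩, rfl⟩ := hy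
    have h1 := D.S_int (j - i) (D.S_br C.hV ha hb)
    have h2 : ((j - i : ℤ) : A) * (D.η * (a * D.EA b - b * D.EA a)) = D.η * a * b := by
      rw [ha', hb']
      push_cast at hij ⊢
      linear_combination (D.η * a * b) * hij
    rw [h2] at h1
    rw [← map_mul, ← map_mul]
    apply Red.mem_Vj h1
    rw [D.E_mul, D.E_mul, ha', hb', D.Eη]
    push_cast
    ring
  | zero_left => simp
  | zero_right => simp
  | add_left x y z _ _ _ h1 h2 => rw [mul_add, add_mul]; exact add_mem h1 h2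
  | add_right x y z _ _ _ h1 h2 => rw [mul_add]; exact add_mem h1 h2
  | smul_left r x y _ _ h => rw [mul_smul_comm, smul_mul_assoc]; exact Submodule.smul_mem _ _ h
  | smul_right r x y _ _ h => rw [mul_smul_comm]; exact Submodule.smul_mem _ _ h

theorem next_A {j : ℤ} {a b : A} (ha : a ∈ D.SA V) (ha' : D.EA a = j * a) (hb : b ∈ D.SA V)
    (hb' : D.EA b = j * b) : (C.c ^ 3) ^ 2 * (a * D.dA b - b * D.dA a) ∈ D.SA V := by
  obtain ⟨α, hα, hα'⟩ := id ha
  obtain ⟨β, hβ, hβ'⟩ := id hb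
  obtain ⟨x, hx⟩ := D.ker (α - a) (by rw [map_sub, hα', D.S_ev ha, sub_self])
  obtain ⟨y, hy⟩ := D.ker (β - b) (by rw [map_sub, hβ', D.S_ev hb, sub_self])
  have hα2 : α = a + D.t * x := by rw [← hx]; ring
  have hβ2 : β = b + D.t * y := by rw [← hy]; ring
  have h3 := D.three
  have hj := D.int_cube j
  -- the element divided by t
  have hw : α * D.dA β - β * D.dA α + D.η * (a * D.EA y + j * x * b - b * D.EA x - j * y * a +
      D.t * (x * D.EA y - y * D.EA x)) ∈ {z | algebraMap A K z ∈ V} := by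
    show algebraMap A K _ ∈ V
    apply D.of_mul_mem_V D.tk D.tK0
    have h1 := C.hV _ hα _ hβ
    rw [D.br_alg] at h1
    rw [← map_mul]
    convert h1 using 2
    rw [Red.brA]
    have h2 : α * D.EA β - β * D.EA α = D.t * (a * D.EA y + j * x * b - b * D.EA x - j * y * a +
        D.t * (x * D.EA y - y * D.EA x)) := by
      rw [hα2, hβ2]
      simp only [map_add, D.E_mul, D.Et, ha', hb']
      ring
    rw [h2]; ring
  have hS : a * D.dA b - b * D.dA a + D.η * (a * (D.EA (D.ev y) - j * D.ev y)) -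
      D.η * (b * (D.EA (D.ev x) - j * D.ev x)) ∈ D.SA V := by
    refine ⟨_, hw, ?_⟩
    simp only [map_add, map_sub, map_mul, D.evt, D.evd, D.evE, hα', hβ', D.S_ev ha, D.S_ev hb,
      D.evη, map_intCast]
    ring
  have hp := C.S_gp (-j) hS
  have hlin : ∀ u v : A, D.pA (-j) (u + v) = D.pA (-j) u + D.pA (-j) v := by
    intro u v; simp only [Red.pA, map_add]; ring
  have hlin' : ∀ u v : A, D.pA (-j) (u - v) = D.pA (-j) u - D.pA (-j) v := by
    intro u v; simp only [Red.pA, map_sub]; ring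
  rw [hlin', hlin, D.pA_kill D.Eη ha', D.pA_kill D.Eη hb', add_zero, sub_zero] at hp
  rwa [D.pA_eig] at hp
  rw [map_sub, D.E_mul, D.E_mul, D.comm, D.comm, ha', hb', D.d_int_mul, D.d_int_mul]
  push_cast
  linear_combination (j * (a * D.dA b - b * D.dA a)) * h3

include C in
theorem next {j : ℤ} {v w : K} (hv : v ∈ D.Vj V j) (hw : w ∈ D.Vj V j) :
    v * D.d w - w * D.d v ∈ D.Vj V (-j) := by
  have h3 := D.three
  induction hv, hw using Submodule.span_induction₂ with
  | mem_mem x y hx hy =>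
    obtain ⟨a, ⟨ha, ha'⟩, rfl⟩ := hx
    obtain ⟨b, ⟨hb, hb'⟩, rfl⟩ := hy
    apply D.of_mul_mem_V C.gk C.gK0
    rw [D.hd, D.hd, ← map_mul, ← map_mul, ← map_sub, ← map_pow, ← map_pow, ← map_mul]
    apply Red.mem_Vj (C.next_A ha ha' hb hb')
    have : (C.c ^ 3) ^ 2 = (C.c ^ 2) ^ 3 := by ring
    rw [this, D.E_cube_mul, map_sub, D.E_mul, D.E_mul, D.comm, D.comm, ha', hb', D.d_int_mul,
      D.d_int_mul]
    push_cast
    linear_combination ((C.c ^ 2) ^ 3 * j * (a * D.dA b - b * D.dA a)) * h3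
  | zero_left => simp
  | zero_right => simp
  | add_left x y z _ _ _ h1 h2 => 
    have : (x + y) * D.d z - z * D.d (x + y) = (x * D.d z - z * D.d x) +
      (y * D.d z - z * D.d y) := by rw [map_add]; ring
    rw [this]; exact add_mem h1 h2
  | add_right x y z _ _ _ h1 h2 => 
    have : x * D.d (y + z) - (y + z) * D.d x = (x * D.d y - y * D.d x) +
      (x * D.d z - z * D.d x) := by rw [map_add]; ring
    rw [this]; exact add_mem h1 h2
  | smul_left r x y _ _ h => 
    have : (r • x) * D.d y - y * D.d (r • x) = r • (x * D.d y - y * D.d x) := by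
      rw [D.dK_smul, smul_sub, smul_mul_assoc, mul_smul_comm]
    rw [this]; exact Submodule.smul_mem _ _ h
  | smul_right r x y _ _ h => 
    have : x * D.d (r • y) - (r • y) * D.d x = r • (x * D.d y - y * D.d x) := by
      rw [D.dK_smul, smul_sub, smul_mul_assoc, mul_smul_comm]
    rw [this]; exact Submodule.smul_mem _ _ h

theorem fK0 : algebraMap A K (D.ev C.f) ≠ 0 := by
  rw [Ne, map_eq_zero_iff _ D.inj]; exact C.f0

theorem ηK0 (D : Red A K k) : algebraMap A K D.η ≠ 0 := by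
  rw [Ne, map_eq_zero_iff _ D.inj]; exact D.η0

include C in
/-- Both nonzero eigenvalues occur. -/
theorem exists_both (hE : ∃ v ∈ V, D.E v ≠ 0) :
    (∃ u ∈ D.Vj V 1, u ≠ 0) ∧ (∃ u ∈ D.Vj V (-1), u ≠ 0) := by
  have hdom := D.isDomain
  obtain ⟨b, hb, hb0⟩ := C.exists_E_ne hE
  -- the key step
  have key : ∀ σ : ℤ, σ ^ 2 = 1 → ∀ u ∈ D.SA V, D.EA u = σ * u → u ≠ 0 →
      ∃ w ∈ D.Vj V (-σ), w ≠ 0 := by
    intro σ hσ u hu hEu hu0
    have hσ' : (σ : A) ^ 2 = 1 := by exact_mod_cast congrArg (Int.cast : ℤ → A) hσ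
    have hcu : C.c * u ∈ D.SA V := by
      have h1 := D.S_int σ (C.S_cE hu)
      rw [hEu] at h1
      have h2 : (σ : A) * (C.c * (σ * u)) = C.c * u := by
        linear_combination (C.c * u) * hσ'
      rwa [h2] at h1
    have hEcu : D.EA (C.c * u) = σ * (C.c * u) := by
      rw [D.E_mul, hEu, C.E_c]; ring
    refine ⟨_, C.next (Red.mem_Vj hu hEu) (Red.mem_Vj hcu hEcu), ?_⟩
    rw [D.hd, D.hd, ← map_mul, ← map_mul, ← map_sub, Ne, map_eq_zero_iff _ D.inj]
    have : u * D.dA (C.c * u) - C.c * u * D.dA u = u * u * D.dA C.c := by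
      rw [D.d_mul]; ring
    rw [this]
    exact mul_ne_zero (mul_ne_zero hu0 hu0) C.dc
  have hg : (C.c ^ 3) ^ 2 ≠ 0 := pow_ne_zero _ (pow_ne_zero _ C.c0)
  have hEg : ∀ z : A, D.EA ((C.c ^ 3) ^ 2 * z) = (C.c ^ 3) ^ 2 * D.EA z := by
    intro z
    have : (C.c ^ 3) ^ 2 = (C.c ^ 2) ^ 3 := by ring
    rw [this, D.E_cube_mul]
  have hmem : ∀ j : ℤ, (C.c ^ 3) ^ 2 * D.pA j b ∈ D.SA V := fun j => C.S_gp j hb
  have heig : ∀ j : ℤ, D.EA ((C.c ^ 3) ^ 2 * D.pA j b) = j * ((C.c ^ 3) ^ 2 * D.pA j b) := by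
    intro j; rw [hEg, D.E_pA]; ring
  by_cases h1 : D.pA 1 b = 0
  · by_cases h2 : D.pA (-1) b = 0
    · exfalso
      apply hb0
      have h3 := D.pA_sum b
      rw [h1, h2, add_zero, add_zero] at h3
      rw [← h3, D.E_pA]; simp
    · have hne : (C.c ^ 3) ^ 2 * D.pA (-1) b ≠ 0 := mul_ne_zero hg h2
      have := key (-1) (by norm_num) _ (hmem _) (heig _) hne
      rw [neg_neg] at this
      refine ⟨this, _, Red.mem_Vj (hmem (-1)) (heig (-1)), ?_⟩
      rw [Ne, map_eq_zero_iff _ D.inj]; exact hne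
  · have hne : (C.c ^ 3) ^ 2 * D.pA 1 b ≠ 0 := mul_ne_zero hg h1
    have := key 1 (by norm_num) _ (hmem _) (heig _) hne
    refine ⟨⟨_, Red.mem_Vj (hmem 1) (heig 1), ?_⟩, this⟩
    rw [Ne, map_eq_zero_iff _ D.inj]; exact hne

theorem f0_Vj : algebraMap A K (D.ev C.f) ∈ D.Vj V 0 :=
  Red.mem_Vj C.f0_mem (by rw [C.E_f0]; simp)

/-- The structure of the reduction. -/
theorem step (hE : ∃ v ∈ V, D.E v ≠ 0) : ∃ R : Subalgebra k K,
    (∀ r ∈ R, r⁻¹ ∈ R) ∧
    (∀ r ∈ R, algebraMap A K (D.ev C.f) * r ∈ D.Vj V 0) ∧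
    (∀ v ∈ D.Vj V 0, (algebraMap A K (D.ev C.f))⁻¹ * v ∈ R) ∧
    algebraMap A K C.c ∈ R ∧
    (∀ r ∈ R, algebraMap A K (D.ev C.f) * D.d r ∈ R) ∧
    (∃ u ≠ 0, D.E u = u ∧ ∀ r ∈ R, r * u ∈ D.Vj V 1) ∧
    (∃ u ≠ 0, D.E u = -u ∧ ∀ r ∈ R, r * u ∈ D.Vj V (-1)) := by
  obtain ⟨⟨u1, hu1, hu10⟩, ⟨u2, hu2, hu20⟩⟩ := C.exists_both hE
  set F : K := algebraMap A K (D.ev C.f) with hF
  set H : K := algebraMap A K D.η with hH
  have hF0 : F ≠ 0 := C.fK0
  have hH0 : H ≠ 0 := ηK0 D
  let S : Set K := {x | ∃ v ∈ D.Vj V 0, x = H * v}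
  let R : Subalgebra k K := Algebra.adjoin k S
  have hinv : ∀ r ∈ R, r⁻¹ ∈ R := by
    intro r hr
    by_cases h0 : r = 0
    · rw [h0, inv_zero]; exact R.zero_mem
    · have h1 : r⁻¹ = (⟨(r ^ 3)⁻¹, k.inv_mem (D.cube r)⟩ : k) • r ^ 2 := by
        rw [Subfield.smul_def, smul_eq_mul]
        field_simp
      rw [h1]
      exact R.smul_mem (R.pow_mem hr 2) _
  have hstab : ∀ σ : ℤ, σ ^ 2 = 1 → ∀ r ∈ R, ∀ w ∈ D.Vj V σ, r * w ∈ D.Vj V σ := by
    intro σ hσ r hr
    induction hr using Algebra.adjoin_induction with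
    | mem x hx =>
      obtain ⟨v, hv, rfl⟩ := hx
      intro w hw
      have := C.mul_ij (i := 0) (j := σ) (by
        rw [sub_zero]; exact_mod_cast congrArg (Int.cast : ℤ → A) hσ) hv hw
      rwa [zero_add] at this
    | algebraMap r => 
      intro w hw
      rw [← Algebra.smul_def]
      exact Submodule.smul_mem _ _ hw
    | add x y _ _ hx hy => intro w hw; rw [add_mul]; exact add_mem (hx w hw) (hy w hw)
    | mul x y _ _ hx hy => intro w hw; rw [mul_assoc]; exact hx _ (hy w hw)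
  have hq : ∀ r ∈ R, r * (H * u1 * u2) ∈ D.Vj V 0 := by
    intro r hr
    have h1 := hstab 1 (by norm_num) r hr u1 hu1
    have h2 := C.mul_ij (i := 1) (j := -1) (by
        push_cast
        linear_combination D.three) h1 hu2
    have h3 : ((1 : ℤ) + -1) = 0 := by norm_num
    rw [h3] at h2
    have h4 : r * (H * u1 * u2) = H * (r * u1) * u2 := by ring
    rw [h4]; exact h2
  have hqR : H * (H * u1 * u2) ∈ R := 
    Algebra.subset_adjoin ⟨_, by simpa using hq 1 R.one_mem, rfl⟩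
  have hq0 : H * (H * u1 * u2) ≠ 0 :=
    mul_ne_zero hH0 (mul_ne_zero (mul_ne_zero hH0 hu10) hu20)
  -- every element of R is H * v
  have hR : ∀ r ∈ R, H⁻¹ * r ∈ D.Vj V 0 := by
    intro r hr
    have h1 := hq _ (R.mul_mem hr (hinv _ hqR))
    have h2 : r * (H * (H * u1 * u2))⁻¹ * (H * u1 * u2) = H⁻¹ * r := by
      field_simp
    rwa [h2] at h1
  have hcR : algebraMap A K C.c ∈ R := by
    apply Algebra.subset_adjoin
    exact ⟨F, C.f0_Vj, by rw [c, map_mul]⟩
  have hc : algebraMap A K C.c = H * F := by rw [c, map_mul]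
  have hfR : ∀ r ∈ R, F * r ∈ D.Vj V 0 := by
    intro r hr
    have h1 := hR _ (R.mul_mem hcR hr)
    rwa [hc, mul_assoc, inv_mul_cancel_left₀ hH0] at h1
  have hRf : ∀ v ∈ D.Vj V 0, F⁻¹ * v ∈ R := by
    intro v hv
    have h1 : H * v ∈ R := Algebra.subset_adjoin ⟨v, hv, rfl⟩
    have h2 := R.mul_mem (hinv _ hcR) h1
    rw [hc] at h2
    have h3 : (H * F)⁻¹ * (H * v) = F⁻¹ * v := by field_simp
    rwa [h3] at h2
  refine ⟨R, hinv, hfR, hRf, hcR, ?_, ⟨u1, hu10, ?_, fun r hr => hstab 1 (by norm_num) r hr u1 hu1⟩,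
    ⟨u2, hu20, ?_, fun r hr => hstab (-1) (by norm_num) r hr u2 hu2⟩⟩
  · intro r hr
    have h1 := C.next C.f0_Vj (hfR r hr)
    rw [neg_zero] at h1
    have h2 : F * D.d (F * r) - F * r * D.d F = F * (F * D.d r) := by
      rw [D.dK_mul]; ring
    rw [← hF, h2] at h1
    have h3 := hRf _ h1
    rwa [inv_mul_cancel_left₀ hF0] at h3
  · have := Red.Vj_eig hu1; simpa using this
  · have := Red.Vj_eig hu2; simpa using this

end Ctx

namespace Red

variable {A K : Type} [CommRing A] [Field K] [Algebra A K] {k : Subfield K} (D : Red A K k)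
  {V : Submodule k K}

open scoped BigOperators

/-- Lifts of linearly independent reduced elements are linearly independent. -/
theorem lift_linearIndependent {m : ℕ} (a : Fin m → A)
    (h : LinearIndependent k (fun i => algebraMap A K (D.ev (a i)))) :
    LinearIndependent k (fun i => algebraMap A K (a i)) := by
  classical
  have hdom := D.isDomain
  rw [Fintype.linearIndependent_iff] at h ⊢
  intro g hg
  choose b x hb hx using fun i => D.frac (g i : K)
  let B : A := ∏ i, b i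
  have hB : B ≠ 0 := Finset.prod_ne_zero_iff.mpr fun i _ => hb i
  let α : Fin m → A := fun i => (∏ j ∈ Finset.univ.erase i, b j) ^ 3 * x i
  have hα : ∀ i, algebraMap A K (α i) = algebraMap A K B ^ 3 * (g i : K) := by
    intro i
    have h1 : B = b i * ∏ j ∈ Finset.univ.erase i, b j :=
      (Finset.mul_prod_erase Finset.univ b (Finset.mem_univ i)).symm
    simp only [α]
    rw [h1, map_mul, map_pow, hx i, map_mul]
    ring
  have hαk : ∀ i, algebraMap A K (α i) ∈ k := by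
    intro i
    rw [hα]
    exact k.mul_mem (D.cube _) (g i).2
  have hsum : ∑ i, α i * a i = 0 := by
    apply D.inj
    rw [map_sum, map_zero]
    have h1 : ∀ i, algebraMap A K (α i * a i) =
        algebraMap A K B ^ 3 * (g i • algebraMap A K (a i)) := by
      intro i
      rw [map_mul, hα, Subfield.smul_def, smul_eq_mul]; ring
    simp only [h1]
    rw [← Finset.mul_sum, hg, mul_zero]
  have key : ∀ l : ℕ, ∃ α' : Fin m → A, (∀ i, α i = D.t ^ l * α' i) ∧
      (∀ i, algebraMap A K (α' i) ∈ k) ∧ ∑ i, α' i * a i = 0 := by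
    intro l
    induction l with
    | zero => exact ⟨α, by simp, hαk, hsum⟩
    | succ l ih =>
      obtain ⟨α', h1, h2, h3⟩ := ih
      have h4 := congrArg D.ev h3
      rw [map_sum, map_zero] at h4
      have h5 := congrArg (algebraMap A K) h4
      rw [map_sum, map_zero] at h5
      have h6 := h (fun i => ⟨algebraMap A K (D.ev (α' i)), D.evk _ (h2 i)⟩) (by
        rw [← h5]
        apply Finset.sum_congr rfl
        intro i _
        rw [Subfield.smul_def, smul_eq_mul, map_mul, map_mul])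
      have h7 : ∀ i, ∃ y, α' i = D.t * y := by
        intro i
        apply D.ker
        have := congrArg Subtype.val (h6 i)
        exact (map_eq_zero_iff _ D.inj).mp this
      choose α'' h8 using h7
      refine ⟨α'', ?_, ?_, ?_⟩
      · intro i; rw [h1, h8, pow_succ]; ring
      · intro i
        have h9 := h2 i
        rw [h8, map_mul] at h9
        have h10 := k.mul_mem (k.inv_mem D.tk) h9
        rwa [inv_mul_cancel_left₀ D.tK0] at h10
      · have h9 : D.t * ∑ i, α'' i * a i = 0 := by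
          rw [Finset.mul_sum, ← h3]
          apply Finset.sum_congr rfl
          intro i _
          rw [h8]; ring
        exact (mul_eq_zero.mp h9).resolve_left D.t0
  intro i
  by_contra hgi
  have hαi : α i ≠ 0 := by
    intro h0
    have h1 := hα i
    rw [h0, map_zero] at h1
    have h2 : (algebraMap A K B) ^ 3 ≠ 0 := by
      apply pow_ne_zero
      rw [Ne, map_eq_zero_iff _ D.inj]; exact hB
    rcases mul_eq_zero.mp h1.symm with h3 | h3
    · exact h2 h3
    · exact hgi (Subtype.ext h3)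
  obtain ⟨l, β, h1, h2⟩ := D.ord _ hαi
  obtain ⟨α', h3, _, _⟩ := key (l + 1)
  have h4 := h3 i
  rw [h1, pow_succ, mul_assoc] at h4
  have h5 := mul_left_cancel₀ (pow_ne_zero l D.t0) h4
  apply h2
  rw [h5, map_mul, D.evt, zero_mul]

theorem finrank_le [FiniteDimensional k V] [FiniteDimensional k (D.V' V)] :
    Module.finrank k (D.V' V) ≤ Module.finrank k V := by
  have hfin : Module.Finite k (Submodule.span k (algebraMap A K '' D.SA V)) :=
    ‹FiniteDimensional k (D.V' V)›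
  obtain ⟨f, hf, _, hlin⟩ := Submodule.exists_fun_fin_finrank_span_eq k (algebraMap A K '' D.SA V)
  have hf' : ∀ i, ∃ a, algebraMap A K a ∈ V ∧ algebraMap A K (D.ev a) = f i := by
    intro i
    obtain ⟨b, ⟨a, ha, rfl⟩, hb⟩ := hf i
    exact ⟨a, ha, hb⟩
  choose a ha ha' using hf'
  have hlin' : LinearIndependent k (fun i => algebraMap A K (D.ev (a i))) := by
    have : (fun i => algebraMap A K (D.ev (a i))) = f := funext ha'
    rw [this]; exact hlin
  have h1 := D.lift_linearIndependent a hlin'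
  have h2 : LinearIndependent k (fun i => (⟨algebraMap A K (a i), ha i⟩ : V)) := by
    apply LinearIndependent.of_comp V.subtype
    exact h1
  have h3 := h2.fintype_card_le_finrank
  rw [Fintype.card_fin] at h3
  exact h3

/-- If the reduction is everything then so is `V`. -/
theorem eq_of_V'_eq {M : Submodule k K} [FiniteDimensional k M] (hVM : V ≤ M)
    (h : D.V' V = M) : V = M := by
  have h1 : FiniteDimensional k V := Submodule.finiteDimensional_of_le hVM
  have h2 : FiniteDimensional k (D.V' V) := by rw [h]; infer_instance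
  apply Submodule.eq_of_le_of_finrank_le hVM
  rw [← h]
  exact D.finrank_le

end Red

end Pool.Agent.H6
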